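import Pool.Agent.MP_5d9b3c_ag.P3B.TDefs
import Pool.Agent.MP_ee8c61_ag.M3H47.Rat

/-!
Factorisation of a rational function modulo powers.
-/

namespace Pool.Agent.MP_5d9b3c_ag.P3B

open Pool.Agent.MP_ee8c61_ag M3 M3RESID M3BK Set M3H47 Polynomial
open scoped IntermediateField

noncomputable section

variable {L : Type} [Field L] [Algebra ℂ L] {K : IntermediateField ℂ L} {y : L} {D : ℤ}

/-- Extension of a valuation from the polynomials. -/
theorem exists_dv (h : Rl K y) (w : K[X] → ℤ)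
    (hm : ∀ p q, p ≠ 0 → q ≠ 0 → w (p * q) = w p + w q)
    (ha : ∀ p q, p ≠ 0 → q ≠ 0 → p + q ≠ 0 → min (w p) (w q) ≤ w (p + q)) :
    ∃ U : DV L, ∀ p, p ≠ 0 → U.v (aeval y p) = w p := by
  classical
  have fr : ∀ t : L, ∃ p q : K[X], t ≠ 0 → p ≠ 0 ∧ q ≠ 0 ∧ t = aeval y p / aeval y q := fun t => by
    obtain ⟨A, B, -, hB, e⟩ := h.frac t
    exact ⟨A, B, fun h0 => ⟨fun e1 => mul_ne_zero h0 (h.ne hB) (by rw [e, e1, map_zero]), hB,
      eq_div_of_mul_eq (h.ne hB) e⟩⟩
  choose n d hs using fr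
  obtain ⟨v, hv⟩ : ∃ v : L → ℤ, v = fun t => if t = 0 then 0 else w (n t) - w (d t) := ⟨_, rfl⟩
  have key : ∀ p q, p ≠ 0 → q ≠ 0 → v (aeval y p / aeval y q) = w p - w q := fun p q hp hq => by
    have h0 := div_ne_zero (h.ne hp) (h.ne hq)
    obtain ⟨a, b, e⟩ := hs _ h0
    rw [div_eq_div_iff (h.ne hq) (h.ne b), ← map_mul, ← map_mul] at e
    have e' := congrArg w (h.inj _ _ e)
    rw [hm _ _ hp b, hm _ _ a hq] at e'
    simp only [hv, if_neg h0]
    omega
  refine ⟨⟨v, by simp [hv], fun s t hs0 ht0 => ?_, fun s t hs0 ht0 h0 => ?_⟩, fun p hp => ?_⟩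
  · obtain ⟨a, b, e⟩ := hs s hs0
    obtain ⟨a', b', e'⟩ := hs t ht0
    rw [e, e', div_mul_div_comm, ← map_mul, ← map_mul, key _ _ a b, key _ _ a' b',
      key _ _ (mul_ne_zero a a') (mul_ne_zero b b'), hm _ _ a a', hm _ _ b b']
    ring
  · obtain ⟨a, b, e⟩ := hs s hs0
    obtain ⟨a', b', e'⟩ := hs t ht0
    have e2 : s + t = aeval y (n s * d t + d s * n t) / aeval y (d s * d t) := by
      rw [map_add, map_mul, map_mul, map_mul, ← div_add_div _ _ (h.ne b) (h.ne b'), ← e, ← e']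
    have h1 : n s * d t + d s * n t ≠ 0 := fun z => h0 (by rw [e2, z, map_zero, zero_div])
    have h2 := ha _ _ (mul_ne_zero a b') (mul_ne_zero b a') h1
    have h3 := key _ _ a b
    have h4 := key _ _ a' b'
    rw [← e] at h3
    rw [← e'] at h4
    rw [e2, key _ _ h1 (mul_ne_zero b b'), hm _ _ b b', h3, h4]
    rw [hm _ _ a b', hm _ _ b a'] at h2
    omega
  · have h1 := hm 1 1 one_ne_zero one_ne_zero
    have h2 := key p 1 hp one_ne_zero
    rw [map_one, div_one] at h2
    rw [mul_one] at h1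
    change v _ = _
    omega

theorem mult_mul {p A B : K[X]} (hp : Prime p) (hA : A ≠ 0) (hB : B ≠ 0) :
    multiplicity p (A * B) = multiplicity p A + multiplicity p B :=
  multiplicity_mul hp (FiniteMultiplicity.of_prime_left hp (mul_ne_zero hA hB))

/-- The place of a prime polynomial. -/
theorem exists_place (h : Rl K y) {p : K[X]} (hp : Prime p) :
    ∃ U : DV L, ∀ A, A ≠ 0 → U.v (aeval y A) = multiplicity p A :=
  exists_dv h (fun A => multiplicity p A)
    (fun A B hA hB => by rw [mult_mul hp hA hB, Nat.cast_add]) fun A B _ _ h0 => by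
      have := (FiniteMultiplicity.of_prime_left hp h0).le_multiplicity_of_pow_dvd
        (dvd_add ((pow_dvd_pow p (min_le_left _ (multiplicity p B))).trans
          (pow_multiplicity_dvd p A)) ((pow_dvd_pow p (min_le_right _ _)).trans
          (pow_multiplicity_dvd p B)))
      omega

theorem mult_cop {p A B : K[X]} (hp : Prime p) (h : IsRelPrime A B) :
    multiplicity p A = 0 ∨ multiplicity p B = 0 := by
  rw [multiplicity_eq_zero, multiplicity_eq_zero, ← not_and_or]
  exact fun e => hp.not_isUnit (h e.1 e.2)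

theorem Pw.mul (hy : y ≠ 0) {s t : L} (h : Pw K univ y D s) (h' : Pw K univ y D t) :
    Pw K univ y D (s * t) := by
  obtain ⟨c, hc, g, -, j, c0, g0, rfl⟩ := h
  obtain ⟨c', hc', g', -, j', c0', g0', rfl⟩ := h'
  refine ⟨c * c', mul_mem hc hc', g * g', trivial, j + j', mul_ne_zero c0 c0', mul_ne_zero g0 g0',
    ?_⟩
  rw [zpow_add₀ hy, mul_zpow]
  ring

theorem Pw.inv {s : L} (h : Pw K univ y D s) : Pw K univ y D s⁻¹ := by
  obtain ⟨c, hc, g, -, j, c0, g0, rfl⟩ := h
  exact ⟨c⁻¹, inv_mem hc, g⁻¹, trivial, -j, inv_ne_zero c0, inv_ne_zero g0, by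
    rw [mul_inv, mul_inv, zpow_neg, inv_zpow]⟩

theorem pw_unit {A : K[X]} (hA : IsUnit A) (j : ℤ) : Pw K univ y D (aeval y A * y ^ j) := by
  obtain ⟨r, hr, rfl⟩ := Polynomial.isUnit_iff.1 hA
  exact ⟨r, r.2, 1, trivial, j, fun e => hr.ne_zero (Subtype.ext e), one_ne_zero, by simp⟩

theorem pw_poly (h : Rl K y) {A : K[X]} (hA : A ≠ 0)
    (hD : ∀ p : K[X], Prime p → ¬p ∣ X → D ∣ multiplicity p A) : Pw K univ y D (aeval y A) := by
  induction A using UniqueFactorizationMonoid.induction_on_coprime with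
  | h0 => exact absurd rfl hA
  | h1 hu => simpa using pw_unit (y := y) (D := D) hu 0
  | @hpr p i hp =>
    by_cases hX : p ∣ X
    · obtain ⟨u, hu⟩ := (hp.irreducible.associated_of_dvd irreducible_X hX).symm
      have := pw_unit (y := y) (D := D) (u.isUnit.pow i) i
      rwa [← hu, mul_pow, map_mul, map_pow, aeval_X, mul_comm, ← zpow_natCast y]
    · obtain ⟨m, hm⟩ := hD p hp hX
      rw [multiplicity_pow_self_of_prime hp] at hm
      refine ⟨1, one_mem K, aeval y p ^ m, trivial, 0, one_ne_zero,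
        zpow_ne_zero _ (h.ne hp.ne_zero), ?_⟩
      rw [map_pow, ← zpow_natCast, hm, ← zpow_mul, mul_comm m, zpow_zero, one_mul, one_mul]
  | @hcp A B hc hA' hB' =>
    have a := left_ne_zero_of_mul hA
    have b := right_ne_zero_of_mul hA
    rw [map_mul]
    refine (hA' a fun p hp hX => ?_).mul h.y_ne (hB' b fun p hp hX => ?_) <;>
      have := hD p hp hX <;> rw [mult_mul hp a b] at this <;>
      rcases mult_cop hp hc with e | e <;> simp_all

/-- The factorisation in a ruled field. -/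
theorem pw_of (h : Rl K y) {u : L} (hu : u ≠ 0)
    (hD : ∀ o : DV L, Nrm o → (∀ c ∈ K, c ∈ o.F 0) → o.v y = 0 → D ∣ o.v u) :
    Pw K univ y D u := by
  obtain ⟨A, B, hc, hB, e⟩ := h.frac u
  have hA : A ≠ 0 := fun e1 => mul_ne_zero hu (h.ne hB) (by rw [e, e1, map_zero])
  have key : ∀ p : K[X], Prime p → ¬p ∣ X → D ∣ multiplicity p A ∧ D ∣ multiplicity p B :=
    fun p hp hX => by
      obtain ⟨U, hU⟩ := exists_place h hp
      have h1 := hD U ⟨_, by rw [hU p hp.ne_zero, multiplicity_self, Nat.cast_one]⟩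
        (fun c hc => by
          by_cases h0 : c = 0
          · exact Or.inl h0
          · have := hU (C ⟨c, hc⟩) (C_ne_zero.2 fun e => h0 (congrArg Subtype.val e))
            rw [aeval_C] at this
            exact Or.inr (this ▸ Int.natCast_nonneg _)) (by
          have := hU X X_ne_zero
          rwa [aeval_X, multiplicity_eq_zero.2 hX] at this)
      have h2 := congrArg U.v e
      rw [U.mul _ _ hu (h.ne hB), hU A hA, hU B hB] at h2
      rcases mult_cop hp hc.isRelPrime with e | e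
      · rw [e, Nat.cast_zero, add_eq_zero_iff_eq_neg] at h2
        exact ⟨by simp [e], by simpa [h2] using h1⟩
      · rw [e, Nat.cast_zero, add_zero] at h2
        exact ⟨h2 ▸ h1, by simp [e]⟩
  rw [eq_div_of_mul_eq (h.ne hB) e, div_eq_mul_inv]
  exact (pw_poly h hA fun p hp hX => (key p hp hX).1).mul h.y_ne
    (pw_poly h hB fun p hp hX => (key p hp hX).2).inv

/-- The field is ruled over the constants of `v'`. -/
theorem rl_cst {v' : VF L} (hy : v' y ≠ 0)
    (hgen : ∀ z : L, z ∈ Subfield.closure ({c | v' c = 0} ∪ {y})) : Rl (cst v') y :=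
  rl_of (transc v' hy) (eq_top_iff.2 fun z _ => by
    refine (Subfield.closure_le (t := ((cst v')⟮y⟯).toSubfield)).2 ?_ (hgen z)
    rintro x (hx | rfl)
    · exact ((cst v')⟮y⟯).algebraMap_mem ⟨x, hx⟩
    · exact IntermediateField.mem_adjoin_simple_self _ _)

theorem sFac : SFAC := fun _ _ _ _ _ _ _ hy hgen hu hD =>
  pw_of (rl_cst hy hgen) hu fun o h1 h2 => hD o h1 h2

end

end Pool.Agent.MP_5d9b3c_ag.P3B
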