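import Pool.Agent.MP_ee8c61_ag.M3BK.XDefs
import Pool.Agent.MP_ee8c61_ag.M3.FKit

/-! The cross functions on curves of exponent zero: the statements. -/

namespace Pool.Agent.MP_5d9b3c_ag.P3B

open Pool.Agent.MP_ee8c61_ag Pool.Agent.MP_ee8c61_ag.M3BK M3 M3RESID Set
open Pool.Agent.MP_96693b_ag.RS (Loc LocOf)

noncomputable section

/-- The residue of `v` on the curve is a multiple of the Euler field of `σ`. -/
structure Eu {L : Type} [Field L] [Algebra ℂ L] (d : Dv L) (v : VF L) (b : ℂ) (G : DV L)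
    (σ : G.kf) (θ : VF G.kf) (μ : ℂ) : Prop where
  ne : μ ≠ 0
  p1 : P1 σ θ
  dl : ∀ e, G.pl.RsD d e → e.δ θ = algebraMap ℂ _ μ
  res : ∀ w, G.pl.Res d v w → w = algebraMap ℂ G.kf (b / μ) • θ

/-- A function with divisor divisible by `D` off zero and infinity. -/
def SMON : Prop := ∀ (k : Type) [Field k] [Algebra ℂ k] (σ : k) (θ : VF k) (t : k) (D : ℤ),
  P1 σ θ → t ≠ 0 → (∀ U : DV k, Nrm U → U.v σ = 0 → D ∣ U.v t) →
  ∃ (c : ℂ) (j : ℤ) (p q : Polynomial ℂ), c ≠ 0 ∧ p.Monic ∧ q.Monic ∧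
    t = algebraMap ℂ k c * σ ^ j * (Polynomial.aeval σ p / Polynomial.aeval σ q) ^ D

/-- The cross function of an exceptional curve. In the second case the initial form of `φ` has
order zero at the end of the curve that has exponent one. -/
def SXCP : Prop := ∀ (L : Type) [Field L] [Algebra ℂ L] (d : Dv L) (v : VF L) (b : ℂ)
  (ψ φ : L) (C : Co L 2) (x : Loc L) (a : Fin 2 → ℂ) (m : Fin 2 → ℤ) (G : DV L) (σ : G.kf)
  (θ : VF G.kf) (μ : ℂ), b ≠ 0 → d.δ v = algebraMap ℂ L b → GP d φ C x a m →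
  (∃ u ∈ d.Ex, ∃ c, v - u ∈ C.F x.O c) → Dm x G.O → Dvs G → Exp d G 0 → Eu d v b G σ θ μ →
  Gd d v ψ → ∃ (c s : ℂ) (j j₁ : ℤ), c ≠ 0 ∧ s ≠ 0 ∧
    G.pl.π (ψ ^ G.v φ / φ ^ G.v ψ) = algebraMap ℂ _ c * σ ^ j * (σ - algebraMap ℂ _ s) ^ j₁ ∧
    (j₁ = 0 ∨ (μ ^ 2 = 1 ∧ ∀ (D : ℤ) (η : L), D ∣ G.v φ → G.v η = 1 →
      (∀ U : DV G.kf, Nrm U → U.v σ = 0 → D ∣ U.v (G.pl.π (φ / η ^ G.v φ))) →
      ∀ U : DV G.kf, Nrm U → D ∣ U.v (G.pl.π (φ / η ^ G.v φ))))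

/-- The two residue fields of a double curve are identified by `ι`. -/
def Io {K k k' : Type} [Field K] [Algebra ℂ K] [Field k] [Algebra ℂ k] [Field k'] [Algebra ℂ k']
    (Q : Loc K) (P : Pl K k) (G : DV k) (P' : Pl K k') (G' : DV k')
    (ι : G'.kf ≃ₐ[ℂ] G.kf) : Prop :=
  ∀ g ∈ LA Q.O (lift P G), ι (G'.pl.π (P'.π g)) = G.pl.π (P.π g)

def SISO : Prop := ∀ (K k k' : Type) [Field K] [Algebra ℂ K] [Field k] [Algebra ℂ k] [Field k']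
  [Algebra ℂ k'] (C : Co K 3) (Q : Loc K) (i i' : Fin 3) (P : Pl K k) (C2 : Co k 2) (x : Loc k)
  (m : Fin 2) (G : DV k) (P' : Pl K k') (C2' : Co k' 2) (x' : Loc k') (m' : Fin 2) (G' : DV k'),
  Tw C Q i i' P C2 x m G → Tw C Q i' i P' C2' x' m' G' →
  (∃ ι, Io Q P G P' G' ι) ∧ ∀ y, ∃ g ∈ LA Q.O (lift P G), G.pl.π (P.π g) = y

/-- The cross function of a double curve is a monomial. The point `Q₀` has the coordinates of the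
model, the point `Q` is any point of the curve with any adapted coordinates. -/
def SCRP : Prop := ∀ (f : Po 3) (la : ℚ) (b : Polynomial ℂ) β q (M : Mod 3) (o o' : M.J)
  (k k' : Type) [Field k] [Algebra ℂ k] [Field k'] [Algebra ℂ k'] (P : Pl (KK 3) k)
  (P' : Pl (KK 3) k') (e : Dv k) (v : VF k) (e' : Dv k') (v' : VF k') (ψ : k) (ψ' : k')
  (G : DV k) (G' : DV k') (σ : G.kf) (θ : VF G.kf) (μ : ℂ) (ι : G'.kf ≃ₐ[ℂ] G.kf)
  Q₀ C₀ lab i₀ i₀' C20 x₀ m₀ C20' x₀' m₀', Hyp f la b β q → M.OK f → M.ex la o = 0 →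
  M.ex la o' = 0 → P.RsD (dvf f la) e → P.Res (dvf f la) (bf la β) v →
  P'.RsD (dvf f la) e' → P'.Res (dvf f la) (bf la β) v' → Gd e v ψ → Gd e' v' ψ' →
  Eu e v (b.eval (-(la : ℂ))) G σ θ μ → Q₀ ∈ M.pts → Pt3 M f Q₀ C₀ lab → lab i₀ = some o →
  lab i₀' = some o' → Tw C₀ Q₀ i₀ i₀' P C20 x₀ m₀ G → Tw C₀ Q₀ i₀' i₀ P' C20' x₀' m₀' G' →
  Io Q₀ P G P' G' ι → ∃ (c : ℂ) (j : ℤ), c ≠ 0 ∧
    ∀ Q ∈ M.pts, ∀ C i i' C2 x m C2' x' m', Tw C Q i i' P C2 x m G →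
      Tw C Q i' i P' C2' x' m' G' → Io Q P G P' G' ι ∧
      Un (lift P G) (ip 3 f / (C.z i ^ M.aa o * C.z i' ^ M.aa o')) ∧
      G.pl.π (ψ / C2.z m ^ G.v ψ) ^ (M.aa o' * G'.v ψ') *
        ι (G'.pl.π (ψ' / C2'.z m' ^ G'.v ψ')) ^ (M.aa o * G.v ψ) *
        G.pl.π (P.π (ip 3 f / (C.z i ^ M.aa o * C.z i' ^ M.aa o'))) ^ (-(G.v ψ * G'.v ψ')) =
      algebraMap ℂ _ c * σ ^ j

end

end Pool.Agent.MP_5d9b3c_ag.P3B
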