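import Pool.Agent.MP_5d9b3c_ag.P3B.TMain
import Pool.Agent.MP_5d9b3c_ag.P3B.TFac
import Pool.Agent.MP_5d9b3c_ag.P3B.XSpec
import Pool.Agent.MP_5d9b3c_ag.P3G.Kit

/-!
Descent of the factorisation and of the refined type.
-/

namespace Pool.Agent.MP_5d9b3c_ag.P3B

open Pool.Agent.MP_ee8c61_ag M3 M3RESID M3BK Set M3H47 P3 P3T

noncomputable section

variable {F L k : Type} [Field F] [Algebra F ℂ] [Field L] [Algebra ℂ L] [Field k] [Algebra ℂ k]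
  {K : IntermediateField ℂ L} {y : L} {D : ℤ}

/-- Eigenfunctions of the Euler field are monomials. -/
theorem rl_eig (h : Rl K y) {Z : VF L} (hZ : ∀ c ∈ K, Z c = 0) (hy : Z y = y) {t : L} (ht : t ≠ 0)
    {a : ℂ} (e : Z t = algebraMap ℂ L a * t) : ∃ n : ℤ, a = n ∧ t / y ^ n ∈ K := by
  obtain ⟨n, hn⟩ := eig_int h Z hZ hy ht (a := -a) (by rw [e, map_neg]; ring)
  have h0 := h.y_ne
  have h1 := zpow_ne_zero (-n) h0
  refine ⟨-n, by rw [Int.cast_neg, ← hn, neg_neg], ker_le h Z hZ (hy.symm ▸ h0) ?_⟩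
  rw [Derivation.leibniz_div, Dv.zpow_der Z _ h0, e, hy, div_self h0, neg_eq_iff_eq_neg.1 hn,
    map_neg, map_intCast]
  simp only [smul_eq_mul, Int.cast_neg]
  ring

theorem p1_eig {σ : k} {θ : VF k} (h : P1 σ θ) {t : k} (ht : t ≠ 0) {a : ℂ}
    (e : θ t = algebraMap ℂ k a * t) :
    ∃ (n : ℤ) (c : ℂ), a = n ∧ c ≠ 0 ∧ t = algebraMap ℂ k c * σ ^ n := by
  obtain ⟨n, hn, h1⟩ := rl_eig (p1_rl h) (fun c hc => by
    obtain ⟨r, rfl⟩ := IntermediateField.mem_bot.1 hc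
    exact θ.map_algebraMap r) h.eul ht e
  obtain ⟨c, hc⟩ := IntermediateField.mem_bot.1 h1
  have h2 : t = algebraMap ℂ k c * σ ^ n := by
    rw [hc, div_mul_cancel₀ _ (zpow_ne_zero _ (p1_ne h))]
  exact ⟨n, c, hn, fun e => ht (by rw [h2, e, map_zero, zero_mul]), h2⟩

/-- The base field is closed under roots. -/
theorem rl_root (h : Rl K y) (hD : D ≠ 0) {g : L} (hg : g ^ D ∈ K) : g ∈ K := by
  have : CharZero L := charZero_of_injective_algebraMap (algebraMap ℂ L).injective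
  by_cases h0 : g = 0
  · exact h0 ▸ zero_mem _
  obtain ⟨Z, h1, h2⟩ := h.exists_der
  have h3 := h1 _ hg
  rw [Dv.zpow_der Z _ h0] at h3
  exact ker_le h Z h1 (h2 ▸ one_ne_zero) (by simpa [hD, h0, zpow_ne_zero] using h3)

variable [Algebra.IsAlgebraic F ℂ]

/-- Descent of the factorisation. -/
theorem Pw.desc (A : GA F L) (h : Rl K y) (hK : A.Stb K) (hy : y ∈ A.fix) {u : L}
    (hu : u ∈ A.fix) (hp : Pw K univ y D u) : Pw ((K : Set L) ∩ A.fix) A.fix y D u := by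
  obtain ⟨c, hc, g, -, j, c0, g0, e⟩ := hp
  have h0 := zpow_ne_zero j h.y_ne
  have key : ∀ c ∈ K, ∀ g ∈ A.fix, c ≠ 0 → g ≠ 0 → u = c * y ^ j * g ^ D →
      Pw ((K : Set L) ∩ A.fix) A.fix y D u := fun c hc g hg c0 g0 e =>
    ⟨c, ⟨hc, by
      have := div_mem (div_mem hu (zpow_mem hg D)) (zpow_mem hy j)
      rwa [e, mul_div_cancel_right₀ _ (zpow_ne_zero _ g0), mul_div_cancel_right₀ _ h0] at this⟩,
      g, hg, j, c0, g0, e⟩
  by_cases hD : D = 0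
  · exact key c hc 1 (one_mem _) c0 one_ne_zero (by rw [e, hD, zpow_zero, zpow_zero])
  have h1 : ∀ σ, A.ρ σ g / g ∈ K := fun σ => rl_root h hD (by
    have h2 := hu σ
    have h3 : A.ρ σ c ≠ 0 := (map_ne_zero _).2 c0
    have h4 := zpow_ne_zero D g0
    rw [e, map_mul, map_mul, map_zpow₀, map_zpow₀, hy σ] at h2
    have h5 : (A.ρ σ g / g) ^ D = c / A.ρ σ c := by
      rw [div_zpow, div_eq_div_iff h4 h3]
      exact mul_left_cancel₀ h0 (by linear_combination h2)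
    exact h5 ▸ div_mem hc (hK σ c hc))
  let W : Submodule ℂ L :=
    { carrier := {x | x / g ∈ K}
      add_mem' := fun ha hb => by simpa [add_div] using add_mem ha hb
      zero_mem' := by simp
      smul_mem' := fun r x hx => by
        simpa [Algebra.smul_def, mul_div_assoc] using mul_mem (K.algebraMap_mem r) hx }
  obtain ⟨g', h2, h3, h4⟩ := A.sa.exists_fx (W := W) (W' := ⊥) (x := g) (fun σ x hx => by
    have := mul_mem (hK σ _ hx) (h1 σ)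
    rwa [map_div₀, div_mul_div_cancel₀ ((map_ne_zero _).2 g0)] at this)
    (by simp [W, g0]) g0
  have h5 : g' ≠ 0 := h4
  replace h2 : g' / g ∈ K := h2
  have h6 := zpow_ne_zero D (div_ne_zero h5 g0)
  refine key (c / (g' / g) ^ D) (div_mem hc (zpow_mem h2 D)) g' h3 (div_ne_zero c0 h6) h5 ?_
  have h7 := zpow_ne_zero D g0
  have h8 := zpow_ne_zero D h5
  rw [e, div_zpow]
  field_simp

/-- Descent of the factorisation on the projective line. -/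
theorem Pw.desc1 (B : GA F k) {σ : k} {θ : VF k} (h : P1 σ θ) (hσ : σ ∈ B.fix) {t : k}
    (ht : t ∈ B.fix) (hp : Pw (range (algebraMap ℂ k)) univ σ D t) :
    ∃ (a : F) (j : ℤ), ∃ g ∈ B.fix, a ≠ 0 ∧ g ≠ 0 ∧
      t = algebraMap ℂ k (algebraMap F ℂ a) * σ ^ j * g ^ D := by
  obtain ⟨c, ⟨h1, h2⟩, g, hg, j, c0, g0, e⟩ := Pw.desc B (p1_rl h) (fun s c hc => by
    obtain ⟨r, rfl⟩ := IntermediateField.mem_bot.1 hc
    exact IntermediateField.mem_bot.2 ⟨_, (B.semi s r).symm⟩) hσ ht (by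
    obtain ⟨c, hc, hp⟩ := hp
    exact ⟨c, IntermediateField.mem_bot.2 hc, hp⟩)
  obtain ⟨r, rfl⟩ := IntermediateField.mem_bot.1 h1
  obtain ⟨a, rfl⟩ := P3G.fix_iff.1 (B.cst_fix.1 h2)
  exact ⟨a, j, g, hg, fun e => c0 (by simp [e]), g0, e⟩

variable {A : GA F L} {d : Dv L} {v v' : VF L} {b : ℂ} {X : Set L} {u : L} {N : ℕ} {g : ℚ}

omit [Algebra.IsAlgebraic F ℂ] in
theorem frm_of (h : A.StarP d v b X u N v' y g) : Frm d v b v' y g :=
  ⟨h.g0, h.y0, h.ex, h.eig, h.gen⟩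

omit [Algebra.IsAlgebraic F ℂ] in
theorem rl_star (h : A.StarP d v b X u N v' y g) (hb : b ≠ 0) : v' y ≠ 0 ∧ Rl (cst v') y := by
  have h1 : v' y ≠ 0 := fun e => mul_ne_zero ((map_ne_zero _).2 hb) h.y0 (by
    rw [← h.eig, e, mul_zero])
  exact ⟨h1, rl_cst h1 h.gen⟩

omit [Algebra.IsAlgebraic F ℂ] in
theorem stb_cst (h : A.InvV v') : A.Stb (cst v') := fun σ c hc => by
  rw [SetLike.mem_coe, mem_cst, ← h σ, mem_cst.1 hc, map_zero]

omit [Algebra.IsAlgebraic F ℂ] in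
theorem pw_star0 (h : A.StarP d v b X u N v' y g) (hb : b ≠ 0) (hu : u ≠ 0) (hD : D ∣ N) :
    Pw (cst v') univ y D u :=
  sFac L v' y u D (rl_star h hb).1 h.gen hu fun o h1 h2 h3 => hD.trans (h.two o h1 h2 h3)

/-- The factorisation on the surface: `u = c * y ^ j * w ^ D` with `c` and `w` fixed. -/
theorem pw_star (h : A.StarP d v b X u N v' y g) (hb : b ≠ 0) (hu : u ≠ 0) (hf : u ∈ A.fix)
    (hD : D ∣ N) : ∃ c ∈ A.fix, ∃ w ∈ A.fix, ∃ j : ℤ, v' c = 0 ∧ c ≠ 0 ∧ w ≠ 0 ∧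
      u = c * y ^ j * w ^ D := by
  obtain ⟨c, ⟨h1, h2⟩, w, hw, j, e⟩ :=
    (pw_star0 h hb hu hD).desc A (rl_star h hb).2 (stb_cst h.inv) h.fix hf
  exact ⟨c, h2, w, hw, j, h1, e⟩

theorem TYP.eu {G : DV L} {σ : G.kf} {θ : VF G.kf} {μ : ℚ} (h : TYP d v b v' u D G.pl σ θ μ) :
    Eu d v b G σ θ μ :=
  ⟨by exact_mod_cast h.ne, h.p1, h.dl, fun w hw => (h.rs w).1 hw⟩

theorem TYP.scale {P : Pl L k} {σ : k} {θ : VF k} {μ : ℚ} (h : TYP d v b v' u D P σ θ μ) {r : ℂ}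
    (hr : r ≠ 0) : TYP d v b v' u D P (r • σ) θ μ where
  ne := h.ne
  p1 := p1_aff h.p1 hr 0 (by simp [Algebra.smul_def]) (by rw [θ.map_smul, h.p1.eul])
  ex := h.ex
  dl := h.dl
  rs := h.rs
  cs := h.cs
  ch hD z hz := by
    obtain ⟨_, ⟨c, rfl⟩, g, hg, j, c0, g0, e⟩ := h.ch hD z hz
    have h0 : algebraMap ℂ k r ^ j ≠ 0 := zpow_ne_zero _ ((map_ne_zero _).2 hr)
    refine ⟨_, ⟨c / r ^ j, rfl⟩, g, hg, j, ?_, g0, ?_⟩ <;> rw [map_div₀, map_zpow₀]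
    · exact div_ne_zero c0 h0
    · rw [e, Algebra.smul_def, mul_zpow]
      field_simp

/-- The refined type over `F`. -/
theorem typ_gal {B : GA F k} {C : Co L 2} {P : Pl L k} (hS : M3F.Srf C d v b)
    (h : A.StarP d v b X u N v' y g) (hd : A.InvD d) (hb : ∀ s : Gm F, s b = b) (hu : u ≠ 0)
    (hf : u ∈ A.fix) (hD : D ∣ N) (hP : A.Cpt B P) (hG : Dvs P.o) (h0 : Exp d P.o 0) :
    ∃ σ ∈ B.fix, ∃ θ μ, TYP d v b v' u D P σ θ μ ∧ B.InvV θ ∧ (D ∣ P.o.v u → ∀ z ∈ A.fix,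
      P.o.v z = 1 → ∃ (a : F) (j : ℤ), ∃ w ∈ B.fix, a ≠ 0 ∧ w ≠ 0 ∧
        P.π (u / z ^ P.o.v u) = algebraMap ℂ k (algebraMap F ℂ a) * σ ^ j * w ^ D) := by
  obtain ⟨σ, θ, μ, t⟩ := sTyp L k C d v v' b y u g D P hS (frm_of h) (pw_star0 h hS.ne hu hD) hG h0
  have c0 : algebraMap ℂ k (b / μ) ≠ 0 :=
    (map_ne_zero _).2 (div_ne_zero hS.ne (by exact_mod_cast t.ne))
  have hθ : B.InvV θ := GA.invV_iff.2 fun s => by
    have h1 := (GA.cpt_iff.1 hP s).res (((t.rs _).2 rfl).congr h.ex)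
    rw [GA.invD_iff.1 hd, GA.invV_iff.1 h.inv] at h1
    have h2 := (t.rs _).1 (h1.congr (by simpa using neg_mem h.ex))
    rw [SI.vf_smul, GA.si_e, B.semi, map_div₀ s, hb, map_ratCast] at h2
    exact smul_right_injective _ c0 h2
  obtain ⟨r, r0, hr⟩ := B.sa.line (p1_ne t.p1) fun s => by
    obtain ⟨n, c, h1, -, h2⟩ := p1_eig t.p1 ((map_ne_zero (B.ρ s)).2 (p1_ne t.p1)) (a := 1)
      (by rw [← hθ s, t.p1.eul, map_one, one_mul])
    obtain rfl : n = 1 := by exact_mod_cast h1.symm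
    exact ⟨c, by rw [GA.sa_a, h2, zpow_one, Algebra.smul_def]⟩
  refine ⟨_, hr, θ, μ, t.scale r0, hθ, fun hD z hz h1 =>
    Pw.desc1 B (t.scale r0).p1 hr (fun s => ?_) ((t.scale r0).ch hD z h1)⟩
  have z0 : z ≠ 0 := fun e => by simp [e, P.o.zero] at h1
  have h2 := F_div (P.o.mem_F_self u) (z ^ P.o.v u)
  rw [v_zpow _ z0, h1, mul_one, sub_self] at h2
  rw [hP.2 s _ h2, (div_mem hf (zpow_mem hz _) : _ ∈ A.fix) s]

end

end Pool.Agent.MP_5d9b3c_ag.P3B
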