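import Pool.Agent.MP_5d9b3c_ag.P3B.XCr
import Pool.Agent.MP_5d9b3c_ag.P3B.TGal
import Pool.Agent.MP_5d9b3c_ag.P3T.Res

/-! Descent on the projective line. -/

namespace Pool.Agent.MP_5d9b3c_ag.P3B

open Pool.Agent.MP_ee8c61_ag Pool.Agent.MP_ee8c61_ag.M3BK M3 M3RESID Set Polynomial P3 P3G P3T
open Pool.Agent.MP_96693b_ag.RS (Loc LocOf)

noncomputable section

variable {F k : Type} [Field F] [Algebra F ℂ] [Field k] [Algebra ℂ k] {σ t : k} {θ : VF k}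

/-- The constants that are defined over `F`. -/
def cF (F k : Type) [Field F] [Algebra F ℂ] [Field k] [Algebra ℂ k] : F →+* k :=
  (algebraMap ℂ k).comp (algebraMap F ℂ)

theorem cF_ap (a : F) : cF F k a = algebraMap ℂ k (algebraMap F ℂ a) := rfl

/-- The action on the underlying vector space. -/
def gsa (A : GA F k) : SA F k where
  a τ := (A.ρ τ).toAddMonoidHom
  one x := by simp
  mul τ τ' x := by simp
  smul := A.smul
  cont := A.cont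

theorem cF_fix (A : GA F k) (a : F) : cF F k a ∈ A.fix := fun τ => by
  rw [cF_ap, A.semi, AlgEquiv.commutes]

/-- The kernel of the Euler field. -/
theorem ker_th (h : P1 σ θ) (h0 : θ t = 0) : ∃ c : ℂ, t = algebraMap ℂ k c := by
  have : CharZero k := charZero_of_injective_algebraMap (algebraMap ℂ k).injective
  by_cases ht : t = 0
  · exact ⟨0, by simp [ht]⟩
  obtain ⟨⟨U, -, n1, n2, n3, -⟩, -⟩ := rP1 k σ θ h
  have s0 := RTh.ne h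
  obtain ⟨c, j, hc, e⟩ := mon_of h ht fun W hW h1 => by
    obtain ⟨_ | a, rfl⟩ := (n1 W).1 hW
    · omega
    by_contra h2
    have h3 := RTh.log h h1 (n3 a) t ht
    have l0 := RP1.lin_ne h a
    have h4 : ((U (some a)).v t : k) ≠ 0 := Int.cast_ne_zero.2 h2
    rw [h0, zero_div, zero_sub, neg_mem_iff] at h3
    have h5 := h3.resolve_left (mul_ne_zero h4 (div_ne_zero s0 l0))
    rw [DV.mul _ _ _ h4 (div_ne_zero s0 l0), RTh.v_int, DV.div _ s0 l0, h1, n3] at h5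
    omega
  have c0 : algebraMap ℂ k c ≠ 0 := by simpa using hc
  rw [e, Derivation.leibniz, Derivation.map_algebraMap, Dv.zpow_der θ σ s0, h.eul] at h0
  obtain rfl : j = 0 := by simpa [c0, s0, zpow_ne_zero j s0] using h0
  exact ⟨c, by simpa using e⟩

theorem P1.scale (h : P1 σ θ) {c : ℂ} (hc : c ≠ 0) : P1 (c • σ) θ where
  tr := fun e => h.tr (by simpa [smul_smul, hc] using e.smul c⁻¹)
  gen := top_unique (h.gen ▸ IntermediateField.adjoin_simple_le_iff.2 (by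
    simpa [smul_smul, hc] using IntermediateField.smul_mem _
      (IntermediateField.mem_adjoin_simple_self ℂ (c • σ)) (x := c⁻¹)))
  eul := by rw [θ.map_smul, h.eul]

theorem Pw.scale {D : ℤ} {T : Set k} (h : Pw (range (algebraMap ℂ k)) T σ D t) {c : ℂ}
    (hc : c ≠ 0) : Pw (range (algebraMap ℂ k)) T (c • σ) D t := by
  obtain ⟨_, ⟨a, rfl⟩, g, hg, j, a0, g0, e⟩ := h
  have c0 : algebraMap ℂ k c ^ j ≠ 0 := zpow_ne_zero _ (by simpa using hc)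
  refine ⟨_, ⟨a / c ^ j, rfl⟩, g, hg, j, ?_, g0, ?_⟩
  · rw [map_div₀, map_zpow₀]
    exact div_ne_zero a0 c0
  · rw [e, map_div₀, map_zpow₀, Algebra.smul_def, mul_zpow]
    field_simp

/-- The orders of a function in normal form off zero and infinity. -/
theorem Pw.dvd {D : ℤ} {T : Set k} (h : Pw (range (algebraMap ℂ k)) T σ D t) (h0 : σ ≠ 0)
    {U : DV k} (hU : D ∣ U.v σ) : D ∣ U.v t := by
  obtain ⟨_, ⟨a, rfl⟩, g, -, j, a0, g0, rfl⟩ := h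
  rw [U.mul _ _ (mul_ne_zero a0 (zpow_ne_zero _ h0)) (zpow_ne_zero _ g0),
    U.mul _ _ a0 (zpow_ne_zero _ h0), v_cst, v_zpow U h0, v_zpow U g0, zero_add]
  exact dvd_add (hU.mul_left _) (dvd_mul_right _ _)

theorem Pw.ne {D : ℤ} {S T : Set k} (h : Pw S T σ D t) (h0 : σ ≠ 0) : t ≠ 0 := by
  obtain ⟨a, -, g, -, j, a0, g0, rfl⟩ := h
  exact mul_ne_zero (mul_ne_zero a0 (zpow_ne_zero _ h0)) (zpow_ne_zero _ g0)

theorem pw_p1 {D : ℤ} (h : P1 σ θ) (ht : t ≠ 0)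
    (h0 : ∀ U : DV k, Nrm U → U.v σ = 0 → D ∣ U.v t) :
    Pw (range (algebraMap ℂ k)) univ σ D t := by
  obtain ⟨c, j, p, q, hc, hp, hq, e⟩ := rMon k σ θ t D h ht h0
  exact ⟨_, ⟨c, rfl⟩, _, trivial, j, by simpa using hc,
    div_ne_zero (RP1.ne0 h hp.ne_zero) (RP1.ne0 h hq.ne_zero), e⟩

/-- A function whose divisor is divisible by `D` is a constant times a power. -/
theorem pow_of {D : ℤ} (h : P1 σ θ) (ht : t ≠ 0) (h0 : ∀ U : DV k, Nrm U → D ∣ U.v t) :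
    ∃ (c : ℂ) (g : k), c ≠ 0 ∧ g ≠ 0 ∧ t = algebraMap ℂ k c * g ^ D := by
  obtain ⟨_, ⟨a, rfl⟩, g, -, j, a0, g0, e⟩ := pw_p1 h ht fun U b _ => h0 U b
  obtain ⟨⟨U, -, n1, n2, -⟩, -⟩ := rP1 k σ θ h
  have s0 := RTh.ne h
  have h1 := h0 _ ((n1 _).2 ⟨none, rfl⟩)
  rw [e, DV.mul _ _ _ (mul_ne_zero a0 (zpow_ne_zero _ s0)) (zpow_ne_zero _ g0),
    DV.mul _ _ _ a0 (zpow_ne_zero _ s0), v_cst, v_zpow _ s0, v_zpow _ g0, zero_add, n2,
    mul_neg_one, dvd_add_left (dvd_mul_right _ _), dvd_neg] at h1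
  obtain ⟨r, rfl⟩ := h1
  exact ⟨a, σ ^ r * g, by simpa using a0, mul_ne_zero (zpow_ne_zero _ s0) g0, by
    rw [e, mul_zpow, ← zpow_mul, mul_comm D, mul_assoc]⟩

variable [Algebra.IsAlgebraic F ℂ] (A : GA F k)

theorem cst_fix {c : ℂ} (h : algebraMap ℂ k c ∈ A.fix) : ∃ a : F, algebraMap F ℂ a = c :=
  fix_iff.1 fun τ => (algebraMap ℂ k).injective ((A.semi τ c).symm.trans (h τ))

/-- Descent of a power: `t = c * r * g ^ D` with `t` and `r` fixed. -/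
theorem pow_desc (h : P1 σ θ) {r g : k} {c : ℂ} {D : ℤ} (ht : t ∈ A.fix) (hr : r ∈ A.fix)
    (t0 : t ≠ 0) (g0 : g ≠ 0) (e : t = algebraMap ℂ k c * r * g ^ D) :
    ∃ a : F, ∃ g' ∈ A.fix, a ≠ 0 ∧ g' ≠ 0 ∧ t = cF F k a * r * g' ^ D := by
  have r0 : r ≠ 0 := fun e' => t0 (by simp [e, e'])
  have c0 : algebraMap ℂ k c ≠ 0 := fun e' => t0 (by simp [e, e'])
  suffices H : ∃ (c' : ℂ), ∃ g' ∈ A.fix, g' ≠ 0 ∧ t = algebraMap ℂ k c' * r * g' ^ D by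
    obtain ⟨c', g', h1, h2, h3⟩ := H
    have h4 := zpow_ne_zero D h2
    obtain ⟨a, rfl⟩ := cst_fix A (c := c') (by
      rw [show algebraMap ℂ k c' = t / r / g' ^ D by rw [h3]; field_simp]
      exact div_mem (div_mem ht hr) (zpow_mem h1 D))
    exact ⟨a, g', h1, fun e' => t0 (by simp [h3, e']), h2, h3⟩
  by_cases hD : D = 0
  · exact ⟨c, 1, one_mem _, one_ne_zero, by simpa [hD] using e⟩
  obtain ⟨a, a0, ha⟩ := (gsa A).line g0 fun τ => by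
    have g1 : A.ρ τ g ≠ 0 := by simpa using g0
    have e1 := congrArg (A.ρ τ) e
    rw [ht τ, map_mul, map_mul, map_zpow₀, hr τ, A.semi] at e1
    have c1 : algebraMap ℂ k (τ c) ≠ 0 := by simpa using c0
    obtain ⟨κ, -, hκ⟩ := const_of h (div_ne_zero g1 g0) fun U _ _ => by
      have e2 := congrArg U.v (e.symm.trans e1)
      rw [U.mul _ _ (mul_ne_zero c0 r0) (zpow_ne_zero _ g0), U.mul _ _ c0 r0,
        U.mul _ _ (mul_ne_zero c1 r0) (zpow_ne_zero _ g1), U.mul _ _ c1 r0, v_cst, v_cst,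
        v_zpow U g0, v_zpow U g1, add_right_inj, mul_right_inj' hD] at e2
      rw [U.div g1 g0, e2, sub_self]
    exact ⟨κ, by rw [Algebra.smul_def, ← hκ, div_mul_cancel₀ _ g0]; rfl⟩
  have a1 : algebraMap ℂ k a ^ D ≠ 0 := zpow_ne_zero _ (by simpa using a0)
  refine ⟨c / a ^ D, a • g, ha, smul_ne_zero a0 g0, ?_⟩
  rw [e, map_div₀, map_zpow₀, Algebra.smul_def, mul_zpow]
  field_simp

/-- Descent of the normal form. -/
theorem Pw.descF {D : ℤ} {T : Set k} (H : Pw (range (algebraMap ℂ k)) T σ D t) (h : P1 σ θ)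
    (hσ : σ ∈ A.fix) (ht : t ∈ A.fix) : Pw (range (cF F k)) A.fix σ D t := by
  have t0 := H.ne (RTh.ne h)
  obtain ⟨_, ⟨c, rfl⟩, g, -, j, -, g0, e⟩ := H
  obtain ⟨a, g', h1, h2, h3, h4⟩ := pow_desc A h ht (zpow_mem hσ j) t0 g0 e
  exact ⟨_, ⟨a, rfl⟩, g', h1, j, by simpa using h2, h3, h4⟩

/-- Descent of a monomial. -/
theorem mon_desc {c : ℂ} {j : ℤ} (hσ : σ ∈ A.fix) (h0 : σ ≠ 0)
    (ht : algebraMap ℂ k c * σ ^ j ∈ A.fix) : ∃ a : F, algebraMap F ℂ a = c :=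
  cst_fix A (by simpa [zpow_ne_zero j h0] using div_mem ht (zpow_mem hσ j))

/-- Descent of a function with three special points. -/
theorem tri_desc (h : P1 σ θ) {c s : ℂ} {j j₁ : ℤ} (hσ : σ ∈ A.fix) (hc : c ≠ 0) (hj : j₁ ≠ 0)
    (ht : algebraMap ℂ k c * σ ^ j * (σ - algebraMap ℂ k s) ^ j₁ ∈ A.fix) :
    (∃ a : F, algebraMap F ℂ a = c) ∧ ∃ a : F, algebraMap F ℂ a = s := by
  obtain ⟨⟨U, -, -, -, n3, -⟩, -⟩ := rP1 k σ θ h
  have s0 := zpow_ne_zero j (RTh.ne h)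
  have l0 := RP1.lin_ne h
  have hs : ∀ τ : Gm F, τ s = s := fun τ => by
    by_contra hne
    have e1 := ht τ
    rw [map_mul, map_mul, map_zpow₀, map_zpow₀, map_sub, hσ τ, A.semi, A.semi] at e1
    have c0 : algebraMap ℂ k c ≠ 0 := by simpa using hc
    have c1 : algebraMap ℂ k (τ c) ≠ 0 := by simpa using hc
    have e2 := congrArg (U (some s)).v e1
    have e3 : (U (some s)).v (σ - algebraMap ℂ k (τ s)) = 0 :=
      (Cr.unit_v (c := s - τ s) (sub_ne_zero.2 (Ne.symm hne)) (by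
        rw [map_sub, sub_sub_sub_cancel_right]
        exact Or.inr (n3 s).ge)).2
    rw [DV.mul _ _ _ (mul_ne_zero c0 s0) (zpow_ne_zero _ (l0 _)), DV.mul _ _ _ c0 s0,
      DV.mul _ _ _ (mul_ne_zero c1 s0) (zpow_ne_zero _ (l0 _)), DV.mul _ _ _ c1 s0, v_cst, v_cst,
      v_zpow _ (l0 _), v_zpow _ (l0 _), e3, n3, add_right_inj, mul_right_inj' hj] at e2
    omega
  have h1 : σ - algebraMap ℂ k s ∈ A.fix := sub_mem hσ fun τ => by rw [A.semi, hs]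
  refine ⟨mon_desc A (j := j) hσ (RTh.ne h) ?_, fix_iff.1 hs⟩
  simpa [zpow_ne_zero j₁ (l0 s)] using div_mem ht (zpow_mem h1 j₁)

/-- An invariant Euler field has a fixed coordinate. -/
theorem fix_coord (h : P1 σ θ) (hθ : A.InvV θ) : ∃ c : ℂ, c ≠ 0 ∧ c • σ ∈ A.fix := by
  have s0 := RTh.ne h
  refine (gsa A).line s0 fun τ => ?_
  have e1 : θ (A.ρ τ σ) = A.ρ τ σ := by rw [← hθ τ σ, h.eul]
  obtain ⟨c, hc⟩ := ker_th h (t := A.ρ τ σ / σ) (by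
    rw [Derivation.leibniz_div, e1, h.eul, smul_eq_mul, smul_eq_mul, smul_eq_mul, mul_comm σ,
      sub_self, mul_zero])
  exact ⟨c, by rw [Algebra.smul_def, ← hc, div_mul_cancel₀ _ s0]; rfl⟩

/-- Fixed polynomials have their coefficients in `F`. -/
theorem fix_pol (hσ : σ ∈ A.fix) (ht : t ∈ A.fix) (h : t ∈ Algebra.adjoin ℂ {σ}) :
    ∃ p : F[X], t = eval₂ (cF F k) σ p := by
  have h1 : t ∈ Submodule.span ℂ (Submonoid.closure {σ} : Set k) := by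
    rwa [← Algebra.adjoin_eq_span]
  obtain ⟨p, hp⟩ := (gsa A).fx_span (s := Submonoid.closure {σ}) (fun x hx => by
      obtain ⟨n, rfl⟩ := Submonoid.mem_closure_singleton.1 hx
      exact pow_mem hσ n) (eval₂RingHom (cF F k) σ).toAddMonoidHom.range (fun a x hx => by
      obtain ⟨n, rfl⟩ := Submonoid.mem_closure_singleton.1 hx
      exact ⟨C a * X ^ n, by simp [cF_ap, Algebra.smul_def]⟩) h1 ht
  exact ⟨p, hp.symm⟩

/-- The fixed field is the field of rational functions over `F`. -/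
theorem fix_rat (h : P1 σ θ) (hσ : σ ∈ A.fix) (ht : t ∈ A.fix) :
    ∃ p q : F[X], eval₂ (cF F k) σ q ≠ 0 ∧ t = eval₂ (cF F k) σ p / eval₂ (cF F k) σ q := by
  by_cases t0 : t = 0
  · exact ⟨0, 1, by simp, by simp [t0]⟩
  have st : ∀ τ, ∀ x ∈ Algebra.adjoin ℂ {σ}, A.ρ τ x ∈ Algebra.adjoin ℂ {σ} := fun τ x hx => by
    induction hx using Algebra.adjoin_induction with
    | mem y hy => rw [mem_singleton_iff.1 hy, hσ τ]; exact Algebra.subset_adjoin rfl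
    | algebraMap r => rw [A.semi]; exact algebraMap_mem _ _
    | add _ _ _ _ a b => rw [map_add]; exact add_mem a b
    | mul _ _ _ _ a b => rw [map_mul]; exact mul_mem a b
  obtain ⟨p, q, H⟩ := RP1.frac h t
  obtain ⟨-, hq, e⟩ := H t0
  have q0 := RP1.ne0 h hq
  obtain ⟨y, ⟨y1, y2⟩, y3, y4⟩ := (gsa A).exists_fx (W' := ⊥)
    (W := (Algebra.adjoin ℂ {σ}).toSubmodule ⊓
      (Algebra.adjoin ℂ {σ}).toSubmodule.comap (LinearMap.mulLeft ℂ t))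
    (fun τ x hx => ⟨st τ x hx.1, by
      have := st τ _ hx.2
      rwa [LinearMap.mulLeft_apply, map_mul, ht τ] at this⟩) (x := aeval σ q)
    ⟨aeval_mem_adjoin_singleton ℂ σ, by
      show t * aeval σ q ∈ Algebra.adjoin ℂ {σ}
      rw [e, div_mul_cancel₀ _ q0]
      exact aeval_mem_adjoin_singleton ℂ σ⟩ q0
  obtain ⟨q', hq'⟩ := fix_pol A hσ y3 y1
  obtain ⟨p', hp'⟩ := fix_pol A hσ (mul_mem ht y3) y2
  exact ⟨p', q', hq' ▸ y4, by rw [← hp', ← hq', mul_div_cancel_right₀ _ y4]⟩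

/-- The refined type with a fixed coordinate. -/
theorem TYP.fixed {L : Type} [Field L] [Algebra ℂ L] {B : GA F L} {P : Pl L k} {d : Dv L}
    {v v' : VF L} {b : ℂ} {u : L} {D : ℤ} {μ : ℚ} (h : TYP d v b v' u D P σ θ μ) (hP : B.Cpt A P)
    (hd : B.InvD d) (hv : ∀ τ, (B.si τ).vf v - v ∈ d.Ex) (hb : ∀ τ : Gm F, τ b = b) (b0 : b ≠ 0) :
    A.InvV θ ∧ ∃ σ' ∈ A.fix, TYP d v b v' u D P σ' θ μ := by
  have hθ : A.InvV θ := GA.invV_iff.2 fun τ => by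
    have h1 := (GA.cpt_iff.1 hP τ).res ((h.rs _).2 rfl)
    rw [GA.invD_iff.1 hd τ] at h1
    have h2 := (h.rs _).1 (h1.congr (hv τ))
    have h3 : algebraMap ℂ k (b / μ) ≠ 0 :=
      (_root_.map_ne_zero _).2 (div_ne_zero b0 (by exact_mod_cast h.ne))
    rw [SI.vf_smul, GA.si_e, A.semi, map_div₀ τ, hb, map_ratCast] at h2
    exact smul_right_injective _ h3 h2
  obtain ⟨c, c0, hc⟩ := fix_coord A h.p1 hθ
  exact ⟨hθ, _, hc, h.ne, P1.scale h.p1 c0, h.ex, h.dl, h.rs, h.cs,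
    fun a z b => (h.ch a z b).scale c0⟩

omit [Algebra.IsAlgebraic F ℂ] in
/-- The identification of the residue fields of a double curve is equivariant. -/
theorem Io.eqv {K k' : Type} [Field K] [Algebra ℂ K] [Field k'] [Algebra ℂ k'] {C : Co K 3}
    {Q : Loc K} {i i' : Fin 3} {P : Pl K k} {C2 : Co k 2} {x : Loc k} {m : Fin 2} {G : DV k}
    {P' : Pl K k'} {C2' : Co k' 2} {x' : Loc k'} {m' : Fin 2} {G' : DV k'}
    {ι : G'.kf ≃ₐ[ℂ] G.kf} (h : Io Q P G P' G' ι) (T : Tw C Q i i' P C2 x m G)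
    (T' : Tw C Q i' i P' C2' x' m' G') {B : GA F K} {A' : GA F k'} {E : GA F G.kf}
    {E' : GA F G'.kf} (h1 : B.Cpt A P) (h2 : A.Cpt E G.pl) (h1' : B.Cpt A' P')
    (h2' : A'.Cpt E' G'.pl) (hQ : B.Stb Q.O) (τ : Gm F) (y : G'.kf) :
    ι (E'.ρ τ y) = E.ρ τ (ι y) := by
  obtain ⟨g, hg, rfl⟩ := tw_surj T' y
  have a' := T'.leA hg
  rw [← T.la2 T'] at hg
  have a := T.leA hg
  have hg' : B.ρ τ g ∈ LA Q.O (lift P G) := by
    obtain ⟨s, s1, s2, s3⟩ := hg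
    obtain ⟨u1, u2, u3⟩ := un_lift.1 s2
    refine ⟨B.ρ τ s, hQ τ s s1, un_lift.2 ⟨T.dat.le _ (hQ τ s s1), ?_, ?_⟩, ?_⟩
    · rw [← h1.2 τ s u1]
      simpa using u2
    · rw [← h1.2 τ s u1]
      exact (h2.1 τ _).trans u3
    · rw [← map_mul]
      exact hQ τ _ s3
  rw [h g hg, h2'.2 τ _ a'.2, h1'.2 τ _ a'.1, h _ hg', h2.2 τ _ a.2, h1.2 τ _ a.1]

omit [Algebra.IsAlgebraic F ℂ] in
theorem cpt_fix {L : Type} [Field L] [Algebra ℂ L] {B : GA F L} {P : Pl L k} (h : B.Cpt A P)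
    {g : L} (hg : g ∈ B.fix) (h0 : g ∈ P.o.F 0) : P.π g ∈ A.fix := fun τ => by
  rw [h.2 τ g h0, hg τ]

theorem P1.flip (h : P1 σ θ) : P1 σ⁻¹ (-θ) where
  tr := fun e => h.tr (by simpa using e.inv)
  gen := top_unique (h.gen ▸ IntermediateField.adjoin_simple_le_iff.2 (by
    simpa using inv_mem (IntermediateField.mem_adjoin_simple_self ℂ σ⁻¹)))
  eul := by
    have := RTh.ne h
    rw [Derivation.neg_apply, Derivation.leibniz_inv, h.eul, smul_eq_mul]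
    field_simp

theorem TYP.flip {L : Type} [Field L] [Algebra ℂ L] {P : Pl L k} {d : Dv L} {v v' : VF L} {b : ℂ}
    {u : L} {D : ℤ} {μ : ℚ} (h : TYP d v b v' u D P σ θ μ) :
    TYP d v b v' u D P σ⁻¹ (-θ) (-μ : ℚ) where
  ne := neg_ne_zero.2 h.ne
  p1 := P1.flip h.p1
  ex := h.ex
  dl e he := by rw [map_neg, h.dl e he, Rat.cast_neg, map_neg]
  rs w := by rw [h.rs, Rat.cast_neg, div_neg, map_neg, neg_smul_neg]
  cs := h.cs
  ch a z b := by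
    obtain ⟨c, h1, g, h2, j, h3, h4, e⟩ := h.ch a z b
    exact ⟨c, h1, g, h2, -j, h3, h4, by rw [inv_zpow', neg_neg, e]⟩

/-- The refined type with a fixed coordinate and a positive exponent at zero. -/
theorem TYP.pos {L : Type} [Field L] [Algebra ℂ L] {B : GA F L} {P : Pl L k} {d : Dv L}
    {v v' : VF L} {b : ℂ} {u : L} {D : ℤ} {μ : ℚ} (h : TYP d v b v' u D P σ θ μ) (hP : B.Cpt A P)
    (hd : B.InvD d) (hv : ∀ τ, (B.si τ).vf v - v ∈ d.Ex) (hb : ∀ τ : Gm F, τ b = b) (b0 : b ≠ 0) :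
    ∃ σ' ∈ A.fix, ∃ (θ' : VF k) (μ' : ℚ), 0 < μ' ∧ TYP d v b v' u D P σ' θ' μ' := by
  obtain ⟨-, σ', h1, h2⟩ := h.fixed A hP hd hv hb b0
  rcases lt_or_gt_of_ne h.ne with c | c
  · exact ⟨_, inv_mem h1, _, _, neg_pos.2 c, h2.flip⟩
  · exact ⟨_, h1, _, _, c, h2⟩

/-- The refined type over `F`, with a positive exponent at zero. -/
theorem typ_pos {L : Type} [Field L] [Algebra ℂ L] {B : GA F L} {d : Dv L} {v v' : VF L} {b : ℂ}
    {X : Set L} {u y : L} {N : ℕ} {g : ℚ} {D : ℤ} {C : Co L 2} {P : Pl L k} (hS : M3F.Srf C d v b)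
    (h : B.StarP d v b X u N v' y g) (hd : B.InvD d) (hb : ∀ s : Gm F, s b = b) (hu : u ≠ 0)
    (hf : u ∈ B.fix) (hD : D ∣ N) (hP : B.Cpt A P) (hG : Dvs P.o) (h0 : Exp d P.o 0) :
    ∃ σ ∈ A.fix, ∃ (θ : VF k) (μ : ℚ), 0 < μ ∧ TYP d v b v' u D P σ θ μ := by
  obtain ⟨σ, h1, θ, μ, h2, -⟩ := typ_gal hS h hd hb hu hf hD hP hG h0
  rcases lt_or_gt_of_ne h2.ne with c | c
  · exact ⟨_, inv_mem h1, _, _, neg_pos.2 c, h2.flip⟩
  · exact ⟨_, h1, _, _, c, h2⟩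

/-- The initial form of `u` on a curve with a fixed coordinate. -/
theorem TYP.ch_fix {L : Type} [Field L] [Algebra ℂ L] {B : GA F L} {P : Pl L k} {d : Dv L}
    {v v' : VF L} {b : ℂ} {u η : L} {D : ℤ} {μ : ℚ} (h : TYP d v b v' u D P σ θ μ)
    (hP : B.Cpt A P) (hσ : σ ∈ A.fix) (hu : u ∈ B.fix) (hη : η ∈ B.fix) (h1 : P.o.v η = 1)
    (hD : D ∣ P.o.v u) : Pw (range (cF F k)) A.fix σ D (P.π (u / η ^ P.o.v u)) := by
  have η0 : η ≠ 0 := fun e => by simp [e, P.o.zero] at h1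
  refine (h.ch hD η h1).descF A h.p1 hσ (cpt_fix A hP (div_mem hu (zpow_mem hη _)) ?_)
  simpa [v_zpow _ η0, h1] using F_div (show u ∈ P.o.F (P.o.v u) from Or.inr le_rfl) (η ^ P.o.v u)

/-- The cross function of an exceptional curve over `F`. -/
theorem xc_fix {L : Type} [Field L] [Algebra ℂ L] {B : GA F L} {d : Dv L} {v v' : VF L} {b : ℂ}
    {ψ φ u w : L} {C : Co L 2} {x : Loc L} {a : Fin 2 → ℂ} {m : Fin 2 → ℤ} {G : DV L}
    (E : GA F G.kf) {σ : G.kf} {θ : VF G.kf} {μ : ℚ} {D : ℤ} (hb : b ≠ 0)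
    (hv : d.δ v = algebraMap ℂ L b) (hgp : GP d φ C x a m)
    (hlo : ∃ u ∈ d.Ex, ∃ c, v - u ∈ C.F x.O c) (hdm : Dm x G.O) (hdv : Dvs G) (hex : Exp d G 0)
    (hT : TYP d v b v' u D G.pl σ θ μ) (μ0 : 0 < μ) (hgd : Gd d v ψ) (hP : B.Cpt E G.pl)
    (hσ : σ ∈ E.fix) (hψ : ψ ∈ B.fix) (hφ : φ ∈ B.fix) (hu : u ∈ B.fix) (w0 : w ≠ 0)
    (huw : u = φ * w ^ D) (hD : D ∣ G.v u) :
    ∃ (c s : F) (j j₁ : ℤ), c ≠ 0 ∧ s ≠ 0 ∧
      G.pl.π (ψ ^ G.v φ / φ ^ G.v ψ) = cF F _ c * σ ^ j * (σ - cF F _ s) ^ j₁ ∧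
      (j₁ = 0 ∨ (μ = 1 ∧ ∀ η ∈ B.fix, G.v η = 1 → ∃ a : F, ∃ g ∈ E.fix, a ≠ 0 ∧ g ≠ 0 ∧
        G.pl.π (u / η ^ G.v u) = cF F _ a * g ^ D)) := by
  obtain ⟨c, s, j, j₁, c0, s0, e, H⟩ :=
    rXcp L d v b ψ φ C x a m G σ θ μ hb hv hgp hlo hdm hdv hex hT.eu hgd
  have φ0 : φ ≠ 0 := ne_of_mn hgp.mn
  have t0 := div_ne_zero (zpow_ne_zero (G.v φ) hgd.1) (zpow_ne_zero (G.v ψ) φ0)
  have t1 : G.v (ψ ^ G.v φ / φ ^ G.v ψ) = 0 := by
    rw [G.div (zpow_ne_zero _ hgd.1) (zpow_ne_zero _ φ0), v_zpow G hgd.1, v_zpow G φ0, mul_comm,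
      sub_self]
  have t2 := cpt_fix E hP (div_mem (zpow_mem hψ (G.v φ)) (zpow_mem hφ (G.v ψ))) (Or.inr t1.ge)
  rw [e] at t2
  by_cases hj : j₁ = 0
  · rw [hj, zpow_zero, mul_one] at t2 e
    obtain ⟨c', rfl⟩ := mon_desc E hσ (RTh.ne hT.p1) t2
    exact ⟨c', 1, j, 0, by simpa using c0, one_ne_zero, by simpa [cF_ap] using e, Or.inl rfl⟩
  obtain ⟨⟨c', rfl⟩, s', rfl⟩ := tri_desc E hT.p1 hσ c0 hj t2
  obtain ⟨h1, h2⟩ := H.resolve_left hj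
  refine ⟨c', s', j, j₁, by simpa using c0, by simpa using s0, e, Or.inr ⟨?_, fun η hη h3 => ?_⟩⟩
  · have : μ ^ 2 = 1 := by exact_mod_cast h1
    nlinarith
  have η0 : η ≠ 0 := fun e => by simp [e, G.zero] at h3
  have w1 := zpow_ne_zero D w0
  have h4 : G.v u = G.v φ + D * G.v w := by rw [huw, G.mul _ _ φ0 w1, v_zpow G w0]
  have unit : ∀ g : L, g ≠ 0 → g / η ^ G.v g ≠ 0 ∧ G.v (g / η ^ G.v g) = 0 := fun g hg =>
    ⟨div_ne_zero hg (zpow_ne_zero _ η0), by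
      rw [G.div hg (zpow_ne_zero _ η0), v_zpow G η0, h3, mul_one, sub_self]⟩
  obtain ⟨a1, a2⟩ := unit φ φ0
  obtain ⟨b1, b2⟩ := unit w w0
  obtain ⟨d1, d2⟩ := unit u (huw ▸ mul_ne_zero φ0 w1)
  have a3 := Pl.π_ne (P := G.pl) a1 a2
  have b3 := Pl.π_ne (P := G.pl) b1 b2
  have h5 : G.pl.π (u / η ^ G.v u) = G.pl.π (φ / η ^ G.v φ) * G.pl.π (w / η ^ G.v w) ^ D := by
    rw [← Pl.π_zpow (P := G.pl) b1 b2, ← G.pl.mul _ (Or.inr a2.ge) _ (Or.inr (by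
      rw [v_zpow _ b1]
      exact (mul_eq_zero_of_right _ b2).ge)), h4, zpow_add₀ η0, div_zpow, ← zpow_mul,
      div_mul_div_comm, mul_comm D, ← huw]
  have h6 : ∀ U : DV G.kf, D ∣ U.v (G.pl.π (u / η ^ G.v u)) ↔
      D ∣ U.v (G.pl.π (φ / η ^ G.v φ)) := fun U => by
    rw [h5, U.mul _ _ a3 (zpow_ne_zero _ b3), v_zpow U b3, dvd_add_left (dvd_mul_right _ _)]
  have h7 := h2 D η (by rwa [h4, dvd_add_left (dvd_mul_right _ _)] at hD) h3 fun U _ hU =>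
    (h6 U).1 ((hT.ch hD η h3).dvd (RTh.ne hT.p1) (hU.symm ▸ dvd_zero D))
  have d3 := Pl.π_ne (P := G.pl) d1 d2
  obtain ⟨r, g, -, g0, e1⟩ := pow_of hT.p1 d3 fun U hU => (h6 U).2 (h7 U hU)
  obtain ⟨r', g', f1, f2, f3, f4⟩ := pow_desc E hT.p1 (c := r) (D := D)
    (cpt_fix E hP (div_mem hu (zpow_mem hη _)) (Or.inr d2.ge)) (one_mem _) d3 g0
    (by rwa [mul_one])
  exact ⟨r', g', f1, f2, f3, by rwa [mul_one] at f4⟩

/-- The constant of the cross function of a double curve lies in `F`. -/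
theorem cr_fix {K k' : Type} [Field K] [Algebra ℂ K] [Field k'] [Algebra ℂ k'] {C : Co K 3}
    {Q : Loc K} {i i' : Fin 3} {P : Pl K k} {C2 : Co k 2} {x : Loc k} {m : Fin 2} {G : DV k}
    {P' : Pl K k'} {C2' : Co k' 2} {x' : Loc k'} {m' : Fin 2} {G' : DV k'}
    {ι : G'.kf ≃ₐ[ℂ] G.kf} (h : Io Q P G P' G' ι) (T : Tw C Q i i' P C2 x m G)
    (T' : Tw C Q i' i P' C2' x' m' G') {B : GA F K} {A' : GA F k'} {E : GA F G.kf}
    {E' : GA F G'.kf} (h1 : B.Cpt A P) (h2 : A.Cpt E G.pl) (h1' : B.Cpt A' P')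
    (h2' : A'.Cpt E' G'.pl) (hQ : B.Stb Q.O) {ψ : k} {ψ' : k'} {f : K} {σ : G.kf}
    (hψ : ψ ∈ A.fix) (hψ' : ψ' ∈ A'.fix) (hf : f ∈ B.fix) (hz : C.z i ∈ B.fix)
    (hz' : C.z i' ∈ B.fix) (hσ : σ ∈ E.fix) (σ0 : σ ≠ 0) {N N' n n' n'' j : ℤ} {c : ℂ}
    (hu : Un (lift P G) (f / (C.z i ^ N * C.z i' ^ N')))
    (e : G.pl.π (ψ / C2.z m ^ G.v ψ) ^ n * ι (G'.pl.π (ψ' / C2'.z m' ^ G'.v ψ')) ^ n' *
      G.pl.π (P.π (f / (C.z i ^ N * C.z i' ^ N'))) ^ n'' = algebraMap ℂ _ c * σ ^ j) :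
    ∃ a : F, algebraMap F ℂ a = c := by
  have a1 : C2.z m ∈ A.fix := T.z2 ▸ cpt_fix A h1 hz' (T.dat.adp.z_F _)
  have a2 : C2'.z m' ∈ A'.fix := T'.z2 ▸ cpt_fix A' h1' hz (T'.dat.adp.z_F _)
  have b1 := cpt_fix E h2 (div_mem hψ (zpow_mem a1 (G.v ψ))) (show _ ∈ G.F 0 by
    simpa [v_zpow _ (C2.ne m), T.dat2.adp.vz] using
      F_div (show ψ ∈ G.F (G.v ψ) from Or.inr le_rfl) (C2.z m ^ G.v ψ))
  have b2 := cpt_fix E' h2' (div_mem hψ' (zpow_mem a2 (G'.v ψ'))) (show _ ∈ G'.F 0 by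
    simpa [v_zpow _ (C2'.ne m'), T'.dat2.adp.vz] using
      F_div (show ψ' ∈ G'.F (G'.v ψ') from Or.inr le_rfl) (C2'.z m' ^ G'.v ψ'))
  have b3 := cpt_fix E h2 (cpt_fix A h1
    (div_mem hf (mul_mem (zpow_mem hz N) (zpow_mem hz' N'))) hu.2.1.1) hu.2.1.2
  refine mon_desc E (j := j) hσ σ0 (e ▸ mul_mem (mul_mem (zpow_mem b1 _) (zpow_mem
    (fun τ => ?_) _)) (zpow_mem b3 _))
  rw [← h.eqv A T T' h1 h2 h1' h2' hQ τ, b2 τ]

end

end Pool.Agent.MP_5d9b3c_ag.P3B
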