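import Pool.Agent.MP_5d9b3c_ag.P3B.XXc
import Pool.Agent.MP_ee8c61_ag.M3BK.RCross
import Pool.Agent.MP_ee8c61_ag.M3BK.RFl

/-! The cross function of a double curve. -/

namespace Pool.Agent.MP_5d9b3c_ag.P3B

open Pool.Agent.MP_ee8c61_ag Pool.Agent.MP_ee8c61_ag.M3BK M3 M3RESID Set
open Pool.Agent.MP_96693b_ag.RS (Loc LocOf)

section Gen

variable {K k k' : Type} [Field K] [Algebra ℂ K] [Field k] [Algebra ℂ k] [Field k'] [Algebra ℂ k']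
  {C : Co K 3} {Q : Loc K} {i i' : Fin 3} {P : Pl K k} {C2 : Co k 2} {x : Loc k} {m : Fin 2}
  {G : DV k} {g : K}

/-- The restriction to the curve. -/
noncomputable def rA (P : Pl K k) (G : DV k) (A : Subalgebra ℂ K) (h : ∀ g ∈ A, g ∈ lift P G) :
    A →ₐ[ℂ] G.kf where
  toFun g := G.pl.π (P.π g)
  map_one' := by rw [OneMemClass.coe_one, P.π_one, G.pl.π_one]
  map_mul' a b := pi2_mul (h _ a.2) (h _ b.2)
  map_zero' := by rw [ZeroMemClass.coe_zero, P.π_zero, G.pl.π_zero]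
  map_add' a b := by
    rw [AddMemClass.coe_add, P.add _ (h _ a.2).1 _ (h _ b.2).1,
      G.pl.add _ (h _ a.2).2 _ (h _ b.2).2]
  commutes' c := by rw [Subalgebra.coe_algebraMap, P.π_cst, G.pl.π_cst]

theorem tw_surj (T : Tw C Q i i' P C2 x m G) (y : G.kf) :
    ∃ g ∈ LA Q.O (lift P G), G.pl.π (P.π g) = y := by
  obtain ⟨s, hs, rfl⟩ := G.pl.surj y
  obtain ⟨g, hg, rfl⟩ := T.lift_fn hs
  exact ⟨g, hg, rfl⟩

theorem pi2_zpow (hg : Un (lift P G) g) (r : ℤ) :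
    G.pl.π (P.π (g ^ r)) = G.pl.π (P.π g) ^ r := by
  obtain ⟨h1, h2, h3⟩ := un_lift.1 hg
  have h4 := P.o.un_O.1 (hg.mono lift_le)
  rw [Pl.π_zpow h4.1 h4.2, Pl.π_zpow (P := G.pl) h2 h3]

end Gen

theorem rIso : SISO := by
  intro K k k' _ _ _ _ _ _ C Q i i' P C2 x m G P' C2' x' m' G' T T'
  refine ⟨?_, tw_surj T⟩
  have e := T.la2 T'
  have a : ∀ g ∈ LA Q.O (lift P G), g ∈ lift P G := fun g => T.leA
  have a' : ∀ g ∈ LA Q.O (lift P G), g ∈ lift P' G' := fun g hg => T'.leA (e ▸ hg)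
  have s : Function.Surjective (rA P G _ a) := fun y => by
    obtain ⟨g, hg, h⟩ := tw_surj T y
    exact ⟨⟨g, hg⟩, h⟩
  have s' : Function.Surjective (rA P' G' _ a') := fun y => by
    obtain ⟨g, hg, h⟩ := tw_surj T' y
    exact ⟨⟨g, e ▸ hg⟩, h⟩
  have hk : RingHom.ker (rA P' G' _ a') = RingHom.ker (rA P G _ a) := Ideal.ext fun g =>
    not_iff_not.1 ((un_pi2 (a' _ g.2)).symm.trans (Iff.trans
      ⟨T'.unA T (e ▸ g.2), T.unA T' g.2⟩ (un_pi2 (a _ g.2))))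
  refine ⟨(Ideal.quotientKerAlgEquivOfSurjective s').symm.trans
    ((Ideal.quotientEquivAlgOfEq ℂ hk).trans (Ideal.quotientKerAlgEquivOfSurjective s)),
    fun g hg => ?_⟩
  have h1 : (Ideal.quotientKerAlgEquivOfSurjective s').symm (G'.pl.π (P'.π g)) =
      Ideal.Quotient.mk _ ⟨g, hg⟩ := (AlgEquiv.symm_apply_eq _).2 rfl
  rw [AlgEquiv.trans_apply, h1]
  rfl

theorem rCrp (E : M3E.EOut) : SCRP := by
  intro f la b β q M o o' k k' _ _ _ _ P P' e v e' v' ψ ψ' G G' σ θ μ ι Q₀ C₀ lab i₀ i₀' C20 x₀ m₀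
    C20' x₀' m₀' hy hM eo eo' r s r' s' g g' hE hQ0 hp l0 l0' T0 T0' hι
  have hB := (E.bas 3 f M hM).toBas1
  obtain ⟨Ψ, h1, h2, h3⟩ := T0.lift_un g.1
  obtain ⟨Ψ', h1', h2', h3'⟩ := T0'.lift_un g'.1
  obtain ⟨Θ, hΘ⟩ : ∃ Θ, Θ = (C₀.z i₀' ^ G.v ψ * Ψ) ^ (M.aa o' * G'.v ψ') *
    (C₀.z i₀ ^ G'.v ψ' * Ψ') ^ (M.aa o * G.v ψ) * ip 3 f ^ (-(G.v ψ * G'.v ψ')) := ⟨_, rfl⟩
  have u0 : Un (lift P G) (ip 3 f / (C₀.z i₀ ^ M.aa o * C₀.z i₀' ^ M.aa o')) := by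
    obtain ⟨l, a1, a2⟩ := ex_third i₀ i₀'
    have u1 := (un_of_ev T0.le hp.fm).mul ((T0.un_z a1 a2).zpow ((lab l).elim 0 M.aa))
    rwa [T0.mon a1 a2, l0, l0', Option.elim_some, Option.elim_some, ← div_div,
      div_mul_cancel₀ _ (zpow_ne_zero _ (C₀.ne l))] at u1
  have key : ∀ Q ∈ M.pts, ∀ C i i' C2 x m C2' x' m', Tw C Q i i' P C2 x m G →
      Tw C Q i' i P' C2' x' m' G' → Un (lift P G) Θ ∧ Io Q P G P' G' ι ∧
      Un (lift P G) (ip 3 f / (C.z i ^ M.aa o * C.z i' ^ M.aa o')) ∧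
      G.pl.π (ψ / C2.z m ^ G.v ψ) ^ (M.aa o' * G'.v ψ') *
        ι (G'.pl.π (ψ' / C2'.z m' ^ G'.v ψ')) ^ (M.aa o * G.v ψ) *
        G.pl.π (P.π (ip 3 f / (C.z i ^ M.aa o * C.z i' ^ M.aa o'))) ^ (-(G.v ψ * G'.v ψ')) =
      G.pl.π (P.π Θ) := fun Q hQ C i i' C2 x m C2' x' m' T T' => by
    have e1 := la_eq hB hQ hQ0 T.le T0.le
    have e1' := la_eq hB hQ hQ0 T'.le T0'.le
    have c1 := T'.ratio T0' e1'
    have c2 := T.ratio T0 e1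
    have c3 := T'.unA T c1.1 c1.2
    have b1 := ratio_up ⟨T.la2 T' ▸ c1.1, c3⟩ (e1 ▸ h1) h2 (G.v ψ)
    have b2 := ratio_up ⟨T.la2 T' ▸ c2.1, T.unA T' c2.1 c2.2⟩ (e1' ▸ h1') h2' (G'.v ψ')
    have z := C.ne i
    have z' := C.ne i'
    have b3 : Un (lift P G) (ip 3 f / (C.z i ^ M.aa o * C.z i' ^ M.aa o')) := by
      have u1 := u0.mul ((c2.2.zpow (M.aa o)).mul (c3.zpow (M.aa o')))
      rwa [div_zpow, div_zpow, div_mul_div_comm, div_mul_div_cancel₀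
        (mul_ne_zero (zpow_ne_zero _ (C₀.ne _)) (zpow_ne_zero _ (C₀.ne _)))] at u1
    have z1 := zpow_ne_zero (G'.v ψ') z
    have z2 := zpow_ne_zero (G.v ψ) z'
    have f1 := (mul_div_cancel₀ (C₀.z i₀' ^ G.v ψ * Ψ) z2).symm
    have f2 := (mul_div_cancel₀ (C₀.z i₀ ^ G'.v ψ' * Ψ') z1).symm
    have f3 := (mul_div_cancel₀ (ip 3 f) (mul_ne_zero (zpow_ne_zero (M.aa o) z)
      (zpow_ne_zero (M.aa o') z'))).symm
    have hΘ' := hΘ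
    have g1 := h3
    have g2 := h3'
    generalize C₀.z i₀' ^ G.v ψ * Ψ / C.z i' ^ G.v ψ = a at b1 f1
    generalize C₀.z i₀ ^ G'.v ψ' * Ψ' / C.z i ^ G'.v ψ' = a' at b2 f2
    generalize ip 3 f / (C.z i ^ M.aa o * C.z i' ^ M.aa o') = u at b3 f3 ⊢
    rw [f1, f2, f3, th_id _ _ _ z z'] at hΘ'
    rw [f1, T.pi_z b1.2.2.1.1] at g1
    rw [f2, T'.pi_z b2.2.2.1.1] at g2
    have b4 := T'.unA T b2.1 b2.2
    have hι' : Io Q P G P' G' ι := fun g hg => hι g (e1 ▸ hg)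
    have d1 : ψ / C2.z m ^ G.v ψ = P.π a :=
      (div_eq_iff (zpow_ne_zero _ (C2.ne m))).2 (g1.symm.trans (mul_comm _ _))
    have d2 : ψ' / C2'.z m' ^ G'.v ψ' = P'.π a' :=
      (div_eq_iff (zpow_ne_zero _ (C2'.ne m'))).2 (g2.symm.trans (mul_comm _ _))
    refine ⟨hΘ' ▸ ((b1.2.zpow _).mul (b4.zpow _)).mul (b3.zpow _), hι', b3, ?_⟩
    rw [d1, d2, hι' a' (T.la2 T' ▸ b2.1), hΘ',
      pi2_mul ((b1.2.zpow _).mul (b4.zpow _)).2.1 (b3.zpow _).2.1,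
      pi2_mul (b1.2.zpow _).2.1 (b4.zpow _).2.1, pi2_zpow b1.2, pi2_zpow b4, pi2_zpow b3]
  have hu := (key Q₀ hQ0 _ _ _ _ _ _ _ _ _ T0 T0').1
  obtain ⟨x1, x2⟩ := exp_tw hp l0 l0' eo eo' T0 r
  obtain ⟨e2, r2⟩ := Pl.exists_RsD (P := G.pl) x2 T0.dat2.adp.vz
    ((rFl k _ _ m₀ T0.rg2).2.2.1 G T0.dat2).2.2.2.1
  obtain ⟨w, Y, hw, hY⟩ := coreA rGdl rTp hy hM hp l0 l0' eo eo' T0 T0' r s r' s' h1 h2 h1' h2'
    (h3.symm ▸ g) (h3'.symm ▸ g') _ _ _ hΘ hu r2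
  obtain ⟨c, j, hc, e1⟩ := mon_of hE.p1 (pi2_ne hu) fun U hN hσ =>
    rTh rP1 _ σ θ e2 μ _ _ Y U hE.p1 (hE.dl _ r2) (div_ne_zero hy.nr hE.ne) hN hσ
      (by rw [← hY, hE.res w hw, Derivation.smul_apply, smul_eq_mul, sub_self]; exact zero_mem _)
  exact ⟨c, j, hc, fun Q hQ C i i' C2 x m C2' x' m' T T' =>
    e1 ▸ (key Q hQ C i i' C2 x m C2' x' m' T T').2⟩

end Pool.Agent.MP_5d9b3c_ag.P3B
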