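import Pool.Agent.MP_5d9b3c_ag.P3B.XMon
import Pool.Agent.MP_ee8c61_ag.M3BK.RCre2
import Pool.Agent.MP_ee8c61_ag.M3BK.RXc

/-! The cross function of an exceptional curve. -/

namespace Pool.Agent.MP_5d9b3c_ag.P3B

open Pool.Agent.MP_ee8c61_ag Pool.Agent.MP_ee8c61_ag.M3BK M3 M3RESID Set Polynomial Cr
open Pool.Agent.MP_96693b_ag.RS (Loc)

variable {L : Type} [Field L] [Algebra ℂ L] {d : Dv L} {v : VF L} {b : ℂ} {ψ φ : L} {C : Co L 2}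
  {x : Loc L} {a : Fin 2 → ℂ} {m : Fin 2 → ℤ} {G : DV L}

/-- The ring at which the curve is created, and the initial form of a monomial function. -/
theorem crep (hgp : GP d ψ C x a m) (hv : d.δ v = algebraMap ℂ L b)
    (hlo : ∃ u ∈ d.Ex, ∃ c, v - u ∈ C.F x.O c) (hm : Dm x G.O) (hG : Dvs G) (hd : Exp d G 0) :
    ∃ (σ : G.kf) (θ : VF G.kf) (μ : ℂ), P1 σ θ ∧
      (∀ e, G.pl.RsD d e → e.δ θ = algebraMap ℂ _ μ) ∧
      (∃ u ∈ d.Ex, v - u ∈ LV G 0 ∧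
        ∀ U : DV G.kf, U.v σ = 0 → G.pl.π ((v - u) ψ / ψ) ∈ U.F 0) ∧
      ∃ η, G.v η = 1 ∧ ∀ U : DV G.kf, U.v σ = 0 → U.v (G.pl.π (ψ / η ^ G.v ψ)) = 0 := by
  obtain ⟨u, hu, c, hc⟩ := hlo
  have h0 := CR.of hgp.rg hm
  have hψ : ψ ≠ 0 := fun e => hgp.mn (by simpa [e] using x.ev_alg 0)
  obtain ⟨C, O, h, ⟨⟨a, ha⟩, hw, hp, hp'⟩, hn⟩ := iter hG (fun C O => (∃ a, C.Ad O d a) ∧
      (∀ i, (v - u) (C.z i) ∈ AA C O) ∧ ψ ∈ AA C O ∧ ψ⁻¹ ∈ AA C O)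
    (fun C O _ ⟨⟨a, h1⟩, h2, h3⟩ => ⟨⟨_, ad_sw h1⟩,
      Fin.forall_fin_two.2 ⟨AA_sw (h2 1), AA_sw (h2 0)⟩, AA_sw h3.1, AA_sw h3.2⟩)
    (fun C O c h ⟨⟨a, h1⟩, h2, h3⟩ => by
      have hs : sg C ∈ AA C O := by
        rw [sg, div_eq_mul_inv]
        exact mul_mem (le_AA (h.st.z 1)) (inv_AA 0)
      exact ⟨⟨_, ad_qt h.st h1⟩, Fin.forall_fin_two.2 ⟨AA_qt c (h2 0),
        AA_qt c (pres h.st h2 (sub_mem hs (algebraMap_mem _ c)))⟩, AA_qt c h3.1, AA_qt c h3.2⟩) h0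
    ⟨⟨a, hgp.ad⟩, fun i => by
      rw [← div_mul_cancel₀ ((v - u) (C.z i)) (mul_ne_zero (C.ne i) (C.mon_ne c))]
      exact mul_mem (le_AA (hc i)) (mul_mem (le_AA (h0.st.z i)) (mon_AA h0.st c)), by
      have h1 : ψ / C.mon m ∈ x.O := by
        by_contra e
        exact hgp.mn (x.ev_out _ e)
      have h2 := x.inv_mem _ h1 hgp.mn
      have h3 := C.mon_ne m
      have h4 : C.mon (-m) = (C.mon m)⁻¹ := by
        simp [Co.mon, Finset.prod_inv_distrib]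
      refine ⟨?_, ?_⟩
      · rw [← div_mul_cancel₀ ψ h3]
        exact mul_mem (le_AA h1) (mon_AA h0.st m)
      · rw [← div_mul_cancel₀ ψ h3, mul_inv, ← h4]
        exact mul_mem (le_AA h2) (mon_AA h0.st _)⟩
  have hN := Cr.nrm_of hG
  have hA := (h.dat hn hN).adp
  obtain ⟨θ, hθ⟩ := Pl.exists_Rs (P := G.pl) (h.th_LV hn hN)
  have hE := hA.eul
  have hδ : ∀ i, d.δ (C.th i) ∈ AA C O := fun i => by
    rw [← sub_add_cancel (d.δ (C.th i)) (algebraMap ℂ L (a i)),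
      ← div_mul_cancel₀ (_ - _) (C.ne i)]
    exact le_AA (add_mem (mul_mem (ha i) (h.st.z i)) (algebraMap_mem _ _))
  obtain ⟨e, he⟩ := hd.fin (v - u)
  obtain ⟨u', h1, h2, h3⟩ := red_in (B := AA C O) (b := b) hE (hd.of_eul hA.vz hE)
    (fun g hg => by
      rw [qt_th0, Derivation.add_apply, Co.th_apply, Co.th_apply]
      exact add_mem (mul_mem (le_AA (h.st.z 0)) (D_AA h.st 0 hg))
        (mul_mem (le_AA (h.st.z 1)) (D_AA h.st 1 hg)))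
    (by rw [qt_th0, map_add]; exact add_mem (hδ 0) (hδ 1)) (-e).toNat (v - u)
    (LV_anti (by omega) he) (by rw [map_sub, d.δ_Ex hu, sub_zero, hv]) fun g => pres h.st hw
  refine ⟨G.pl.π (sg C), θ, a 1, ⟨NC.tr G.pl hn, CR.gen G.pl h hn hN, ?_⟩, fun e he => ?_,
    ⟨u + u', add_mem hu h1, by rwa [← sub_sub], fun U hU => ?_⟩, C.z 0, h.v0 hn hN,
    fun U hU => ?_⟩
  · rw [← hθ.2 _ hn.1, th1_sg]
  · rw [← he _ _ hθ, Pl.π_congr (P := G.pl) (cst_F G _) (h.δ_th ha 1), G.pl.π_cst]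
  · rw [← sub_sub]
    refine h.lau hn hN ?_ (LV_dlog h2 ψ) hU
    rw [div_eq_mul_inv]
    exact mul_mem (h3 _ hp) hp'
  · have z : ∀ n : ℤ, C.z 0 ^ n ∈ AA C O := fun n => by
      simpa [Co.mon] using mon_AA h.st ![n, 0]
    have z0 := zpow_ne_zero (G.v ψ) (C.ne 0)
    have t0 := div_ne_zero hψ z0
    have t1 : G.v (ψ / C.z 0 ^ G.v ψ) = 0 := by
      rw [G.div hψ z0, v_zpow G (C.ne 0), h.v0 hn hN, mul_one, sub_self]
    have t2 := h.lau hn hN (g := ψ / C.z 0 ^ G.v ψ) (by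
      rw [div_eq_mul_inv, ← zpow_neg]
      exact mul_mem hp (z _)) (Or.inr t1.ge) hU
    have t3 := h.lau hn hN (g := (ψ / C.z 0 ^ G.v ψ) ^ (-1 : ℤ)) (by
      rw [zpow_neg_one, inv_div, div_eq_mul_inv]
      exact mul_mem (z _) hp') (Or.inr (by rw [v_zpow G t0, t1]; rfl)) hU
    have t4 := Pl.π_ne (P := G.pl) t0 t1
    rw [Pl.π_zpow (P := G.pl) t0 t1] at t3
    have t5 := t2.resolve_left t4
    have t6 := t3.resolve_left (zpow_ne_zero _ t4)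
    rw [v_zpow U t4] at t6
    omega

/-- The residue of the volume exists. -/
theorem Eu.rsd {σ : G.kf} {θ : VF G.kf} {μ : ℂ} (h : Eu d v b G σ θ μ) (hb : b ≠ 0)
    (hv : d.δ v = algebraMap ℂ L b) (hN : Nrm G) (hd : Exp d G 0) : ∃ e, G.pl.RsD d e := by
  obtain ⟨η, hη⟩ := hN
  obtain ⟨w, hw⟩ := Pl.exists_Res (P := G.pl) hd (hv ▸ cst_F G b)
  refine Pl.exists_RsD (P := G.pl) hd hη fun w' => ?_
  have h1 := h.res w hw
  obtain ⟨u, -, h2⟩ := hw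
  obtain ⟨g, hg, e⟩ := G.pl.surj (w' σ / σ * algebraMap ℂ _ (μ / b))
  refine ⟨_, (congrArg _ ?_).mp (h2.smul hg)⟩
  rw [e, h1, smul_smul, mul_assoc, ← map_mul, div_mul_div_cancel₀ hb, div_self h.ne, map_one,
    mul_one, ← RTh.span h.p1]

/-- The initial form changes by a power when the uniformizer changes. -/
theorem dvd_eta {η η' : L} {D : ℤ} (h0 : φ ≠ 0) (hD : D ∣ G.v φ) (h : G.v η = 1) (h' : G.v η' = 1)
    {U : DV G.kf} (hU : D ∣ U.v (G.pl.π (φ / η ^ G.v φ))) :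
    D ∣ U.v (G.pl.π (φ / η' ^ G.v φ)) := by
  have e0 : η ≠ 0 := fun e => by simp [e, G.zero] at h
  have e0' : η' ≠ 0 := fun e => by simp [e, G.zero] at h'
  have z := zpow_ne_zero (G.v φ) e0
  have t0 := div_ne_zero h0 z
  have t1 : G.v (φ / η ^ G.v φ) = 0 := by rw [G.div h0 z, v_zpow G e0, h, mul_one, sub_self]
  have r0 := div_ne_zero e0 e0'
  have r1 : G.v (η / η') = 0 := by rw [G.div e0 e0', h, h', sub_self]
  have r2 := Pl.π_ne (P := G.pl) r0 r1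
  rw [← div_mul_div_cancel₀ z, ← div_zpow, G.pl.mul _ (Or.inr t1.ge) _
    (Or.inr (by rw [v_zpow _ r0]; exact (mul_eq_zero_of_right _ r1).ge)),
    Pl.π_zpow (P := G.pl) r0 r1, U.mul _ _ (Pl.π_ne (P := G.pl) t0 t1) (zpow_ne_zero _ r2),
    v_zpow U r2]
  exact dvd_add hU (hD.mul_right _)

theorem rXcp : SXCP := by
  intro L _ _ d v b ψ φ C x a m G σ θ μ hb hv hgp hlo hdm hdv hex hE hgd
  obtain ⟨σ', θ', μ', p', hμ', ⟨u, hu, h1, h2⟩, η₀, k1, k2⟩ := crep hgp hv hlo hdm hdv hex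
  obtain ⟨e, he⟩ := hE.rsd hb hv (Cr.nrm_of hdv) hex
  have p := hE.p1
  choose! a' ha' using fun (W : DV G.kf) (hW : Nrm W) => exp_ex p (hE.dl e he) hW
  obtain ⟨⟨V, inj, n1, n2, n3, n4, -⟩, q'⟩ := rP1 _ σ' θ' p'
  obtain ⟨⟨U, -, m1, m2, m3, m4, -⟩, q⟩ := rP1 _ σ θ p
  replace q := fun W hW => q e μ _ W (hE.dl e he) hW (ha' W hW)
  replace q' := fun W hW => q' e μ' _ W (hμ' e he) hW (ha' W hW)
  obtain ⟨w, hw⟩ := Pl.exists_Rs (P := G.pl) h1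
  have h6 := hE.res w ⟨u, hu, hw⟩
  obtain ⟨ψ0, X, hX⟩ := hgd
  have φ0 : φ ≠ 0 := fun c => MP_96693b_ag.RS.Loc.ne_zero_of_ev hgp.mn (by rw [c, zero_div])
  obtain ⟨Y, hY⟩ := RXc.ex_dlog d ψ0 hu
  have h7 : (v - u) ψ / ψ = d.δ (X - Y) := by
    rw [Derivation.sub_apply, sub_div, hX, hY, map_sub]
  have h8 : (v - u) ψ / ψ ∈ G.pl.o.F 0 := LV_dlog h1 ψ
  have h9 : (v - u) φ / φ ∈ G.pl.o.F 0 := LV_dlog h1 φ
  obtain ⟨w', hw'⟩ := Pl.flag (P := G.pl) hex he (h7 ▸ h8)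
  have t0 : ψ ^ G.v φ / φ ^ G.v ψ ≠ 0 := div_ne_zero (zpow_ne_zero _ ψ0) (zpow_ne_zero _ φ0)
  have t1 : G.v (ψ ^ G.v φ / φ ^ G.v ψ) = 0 := by
    rw [div_eq_mul_inv, G.mul _ _ (zpow_ne_zero _ ψ0) (inv_ne_zero (zpow_ne_zero _ φ0)), G.inv,
      v_zpow G ψ0, v_zpow G φ0]
    ring
  have t2 := hw.dlog t0 t1
  have t3 := Pl.π_ne (P := G.pl) t0 t1
  rw [RXc.dlog _ ψ0 φ0, Pl.π_sub (F_mul0 (int_F _) h8) (F_mul0 (int_F _) h9),
    G.pl.mul _ (int_F _) _ h8, G.pl.mul _ (int_F _) _ h9, Pl.π_int, Pl.π_int, h7, hw', h6,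
    Derivation.smul_apply, smul_eq_mul] at t2
  have A : ∀ W : DV G.kf, Nrm W → W.v σ = 0 → W.v σ' = 0 →
      W.v (G.pl.π (ψ ^ G.v φ / φ ^ G.v ψ)) = 0 := fun W hW c c' => by
    refine rTh rP1 _ σ θ e μ (b / μ) _ (G.v φ • w') W p (hE.dl e he) (div_ne_zero hb hE.ne) hW c ?_
    rw [← t2, map_zsmul, zsmul_eq_mul, sub_sub_cancel_left]
    exact neg_mem (F_mul0 (int_F _) (h2 W c'))
  generalize G.pl.π (ψ ^ G.v φ / φ ^ G.v ψ) = t at t3 A ⊢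
  have ends : ∀ W, Nrm W → W.v σ' ≠ 0 → W = V none ∨ W = V (some 0) := fun W hW c => by
    obtain ⟨_ | s, rfl⟩ := (n1 W).1 hW
    · exact Or.inl rfl
    · exact Or.inr (by rw [not_not.1 fun e => c (n4 s e)])
  have v0 : Nrm (V none) := (n1 _).2 ⟨_, rfl⟩
  have v1 : Nrm (V (some 0)) := (n1 _).2 ⟨_, rfl⟩
  have n5 : (V (some 0)).v σ' = 1 := by simpa using n3 0
  have a0 := (q' _ v0).2.1 (by omega)
  have a1 := (q' _ v1).1 (by omega)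
  by_cases hW : ∃ W : DV G.kf, Nrm W ∧ W.v σ = 0 ∧ W.v σ' ≠ 0
  swap
  · obtain ⟨c, j, hc, e1⟩ := mon_of p t3 fun W b1 b2 => A W b1 b2 (by_contra fun b3 =>
      hW ⟨W, b1, b2, b3⟩)
    exact ⟨c, 1, j, 0, hc, one_ne_zero, by simpa using e1, Or.inl rfl⟩
  obtain ⟨W, w1, w2, w3⟩ := hW
  obtain ⟨W', w4, w5, w6⟩ : ∃ W', Nrm W' ∧ a' W' = -1 ∧
      ∀ Z, Nrm Z → Z.v σ' ≠ 0 → Z = W ∨ Z = W' := by
    have w4 := (q _ w1).2.2 w2
    rcases ends W w1 w3 with rfl | rfl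
    · exact ⟨_, v1, by linear_combination a1 + a0 - w4, ends⟩
    · exact ⟨_, v0, by linear_combination a1 + a0 - w4, fun Z b1 b2 => (ends Z b1 b2).symm⟩
  have w7 : W'.v σ ≠ 0 := fun c => by
    have := w5.symm.trans ((q _ w4).2.2 c)
    norm_num at this
  obtain ⟨_ | s, rfl⟩ := (m1 W).1 w1
  · omega
  have s0 : s ≠ 0 := fun c => by
    have := m3 s
    rw [c, map_zero, sub_zero] at this
    rw [c] at w2
    omega
  have l0 := RP1.lin_ne p s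
  have l1 := zpow_ne_zero ((U (some s)).v t) l0
  obtain ⟨c, j, hc, e1⟩ := mon_of p (div_ne_zero t3 l1) fun Z b1 b2 => by
    rw [Z.div t3 l1, v_zpow Z l0]
    by_cases b3 : Z = U (some s)
    · rw [b3, m3, mul_one, sub_self]
    have b4 : Z.v σ' = 0 := by_contra fun b4 => (w6 Z b1 b4).elim b3 fun b5 => w7 (b5 ▸ b2)
    obtain ⟨_ | r, rfl⟩ := (m1 Z).1 b1
    · omega
    have b5 : r ≠ s := fun c => b3 (by rw [c])
    have b6 : (U (some r)).v (σ - algebraMap ℂ _ s) = 0 :=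
      (Cr.unit_v (c := r - s) (sub_ne_zero.2 b5) (by
        rw [map_sub, sub_sub_sub_cancel_right]
        exact Or.inr (m3 r).ge)).2
    rw [A _ b1 b2 b4, b6, mul_zero, sub_zero]
  refine ⟨c, s, j, _, hc, s0, (div_eq_iff l1).1 e1, Or.inr ⟨?_, fun D η hD hη H => ?_⟩⟩
  · rcases lt_or_gt_of_ne w7 with c | c
    · rw [← neg_sq, ← (q _ w4).2.1 c, w5, neg_sq, one_pow]
    · rw [← (q _ w4).1 c, w5, neg_sq, one_pow]
  · have B : ∀ Z : DV G.kf, Nrm Z → Z ≠ W' → D ∣ Z.v (G.pl.π (φ / η ^ G.v φ)) := fun Z b1 b2 => by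
      by_cases b3 : Z.v σ' = 0
      · exact dvd_eta φ0 hD k1 hη ((k2 Z b3).symm ▸ dvd_zero D)
      · exact H Z b1 (((w6 Z b1 b3).resolve_right b2).symm ▸ w2)
    intro Z hZ
    by_cases b2 : Z = W'
    · exact b2 ▸ dvd_last p w4 B
    · exact B Z hZ b2

end Pool.Agent.MP_5d9b3c_ag.P3B
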