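import Pool.Agent.MP_ee8c61_ag.M3BK.Spec

/-!
The refined type of a curve of exponent zero: definitions and statements.
-/

namespace Pool.Agent.MP_5d9b3c_ag.P3B

open Pool.Agent.MP_ee8c61_ag M3 M3RESID M3BK Set
open Pool.Agent.MP_96693b_ag.RS (Loc)

noncomputable section

variable {L k : Type} [Field L] [Algebra ℂ L] [Field k] [Algebra ℂ k]

/-- `t` is an element of `S` times a power of `σ` times the `D`-th power of an element of `T`. -/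
def Pw (S T : Set k) (σ : k) (D : ℤ) (t : k) : Prop :=
  ∃ c ∈ S, ∃ g ∈ T, ∃ j : ℤ, c ≠ 0 ∧ g ≠ 0 ∧ t = c * σ ^ j * g ^ D

/-- The frame, with its data exposed. -/
structure Frm (d : Dv L) (v : VF L) (b : ℂ) (v' : VF L) (y : L) (g : ℚ) : Prop where
  g0 : g ≠ 0
  y0 : y ≠ 0
  ex : v - v' ∈ d.Ex
  vy : (g : L) * v' y = algebraMap ℂ L b * y
  gen : ∀ z : L, z ∈ Subfield.closure ({c | v' c = 0} ∪ {y})

/-- The refined type of the place `P` of exponent zero. -/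
structure TYP (d : Dv L) (v : VF L) (b : ℂ) (v' : VF L) (u : L) (D : ℤ) (P : Pl L k) (σ : k)
    (θ : VF k) (μ : ℚ) : Prop where
  ne : μ ≠ 0
  p1 : P1 σ θ
  ex : ∃ e, P.RsD d e
  dl : ∀ e, P.RsD d e → e.δ θ = algebraMap ℂ k μ
  rs : ∀ w, P.Res d v w ↔ w = algebraMap ℂ k (b / μ) • θ
  cs : ∀ c ∈ P.o.F 0, v' c = 0 → P.π c ∈ range (algebraMap ℂ k)
  ch : D ∣ P.o.v u → ∀ z, P.o.v z = 1 →
    Pw (range (algebraMap ℂ k)) univ σ D (P.π (u / z ^ P.o.v u))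

/-- Every curve of exponent zero has the refined type. -/
def STYP : Prop := ∀ (L k : Type) [Field L] [Algebra ℂ L] [Field k] [Algebra ℂ k] (C : Co L 2)
  (d : Dv L) (v v' : VF L) (b : ℂ) (y u : L) (g : ℚ) (D : ℤ) (P : Pl L k), M3F.Srf C d v b →
  Frm d v b v' y g → Pw {c | v' c = 0} univ y D u → Dvs P.o → Exp d P.o 0 →
  ∃ σ θ μ, TYP d v b v' u D P σ θ μ

/-- Divisibility at the horizontal places gives the factorisation. -/
def SFAC : Prop := ∀ (L : Type) [Field L] [Algebra ℂ L] (v' : VF L) (y u : L) (D : ℤ),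
  v' y ≠ 0 → (∀ z : L, z ∈ Subfield.closure ({c | v' c = 0} ∪ {y})) → u ≠ 0 →
  (∀ o : DV L, Nrm o → (∀ c, v' c = 0 → c ∈ o.F 0) → o.v y = 0 → D ∣ o.v u) →
  Pw {c | v' c = 0} univ y D u

/-- The creation ring of a curve of exponent zero, with the residue of the monomial function. -/
def SCREP : Prop := ∀ (L k : Type) [Field L] [Algebra ℂ L] [Field k] [Algebra ℂ k] (d : Dv L)
  (v : VF L) (b : ℂ) (ψ : L) (C : Co L 2) (x : Loc L) (a : Fin 2 → ℂ) (m : Fin 2 → ℤ)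
  (P : Pl L k), GP d ψ C x a m → d.δ v = algebraMap ℂ L b →
  (∃ u ∈ d.Ex, ∃ c, v - u ∈ C.F x.O c) → Dm x P.o.O → Dvs P.o → Exp d P.o 0 →
  ∃ (σ : k) (θ : VF k) (μ : ℂ), P1 σ θ ∧ (∀ e, P.RsD d e → e.δ θ = algebraMap ℂ _ μ) ∧
    (∃ u ∈ d.Ex, v - u ∈ LV P.o 0 ∧ ∀ U : DV k, U.v σ = 0 → P.π ((v - u) ψ / ψ) ∈ U.F 0) ∧
    ∀ z, P.o.v z = 1 → Pw (range (algebraMap ℂ k)) univ σ (P.o.v ψ) (P.π (ψ / z ^ P.o.v ψ))

theorem TYP.ty {d : Dv L} {v v' : VF L} {b : ℂ} {u : L} {D : ℤ} {G : DV L} {σ : G.kf}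
    {θ : VF G.kf} {μ : ℚ} (h : TYP d v b v' u D G.pl σ θ μ) {X₀ : Set L}
    (h1 : ∀ c ∈ X₀, c ∈ G.F 0) (h2 : ∀ c ∈ X₀, v' c = 0) : TY d v b X₀ G :=
  ⟨σ, θ, μ, by exact_mod_cast h.ne, h.p1, h.dl, Or.inr fun w hw => (h.rs w).1 hw,
    fun c hc => h.cs c (h1 c hc) (h2 c hc)⟩

end

end Pool.Agent.MP_5d9b3c_ag.P3B
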