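import Pool.Agent.MP_5d9b3c_ag.P3B.TTow
import Pool.Agent.MP_ee8c61_ag.M3BK.M0G
import Pool.Agent.MP_ee8c61_ag.M3BK.RCrv

/-!
The refined type of a curve of exponent zero.
-/

namespace Pool.Agent.MP_5d9b3c_ag.P3B

open Pool.Agent.MP_ee8c61_ag M3 M3RESID M3BK Set M3BK.Cr Polynomial
open Pool.Agent.MP_96693b_ag.RS (Loc)
open Pool.Agent.MP_cce4c9_lc
open H87 hiding Dv

noncomputable section

variable {L k : Type} [Field L] [Algebra ℂ L] [Field k] [Algebra ℂ k]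

/-- A point of the ruled model. -/
structure Ctr (d : Dv L) (v' : VF L) (y : L) (g : ℚ) (C : Co L 2) (x : Loc L) (a : Fin 2 → ℂ) :
    Prop where
  rg : Rg C x
  ad : C.Ad x.O d a
  vt : v' (C.z 0) = 0
  kind : (C.z 1 = y ∧ a 1 = g) ∨ (C.z 1 = y⁻¹ ∧ a 1 = -g) ∨
    ∃ c : ℂ, c ≠ 0 ∧ C.z 1 = y - algebraMap ℂ L c ∧ a 1 = 1
  cs : ∀ c, c ≠ 0 → v' c = 0 → ∃ (n : ℤ) (r : ℂ), r ≠ 0 ∧
    (c / C.z 0 ^ n - algebraMap ℂ L r) / C.z 0 ∈ x.O
  fib : ∀ G : DV L, C.Dat x.O G 0 → G.v y = 0 ∧ IntermediateField.adjoin ℂ {G.pl.π y} = ⊤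

theorem exists_ctr {C : Co L 2} {d : Dv L} {v v' : VF L} {b : ℂ} {y : L} {g : ℚ}
    (hS : M3F.Srf C d v b) (h : Frm d v b v' y g) {V : ValuationSubring L}
    (hV : ∀ c, algebraMap ℂ L c ∈ V) : ∃ C x a, Ctr d v' y g C x a ∧ Le x V := by
  obtain ⟨s, X0, X1, q, H, R, R', W⟩ := exists_ru' hS h.g0 h.y0 h.ex h.vy h.gen
  obtain ⟨x, ⟨t, -, o, p⟩, hx⟩ := Fb_prop (y := y) R.ff hV finite_empty (by simp)
  have RR : Ru (M3H47.cst v') (ww y o) s (o.elim (-X0) fun _ => X0) X1 := by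
    rcases o with _ | c
    exacts [R', R]
  have WW : Vol d (o.elim (-X0) fun _ => X0) X1 (o.elim (-g) fun _ => g) q H := by
    rcases o with _ | c
    exacts [W.neg, W]
  refine ⟨_, x, _, ⟨RR.rg p, RR.adp p WW, (un t).2, ?_, fun c hc h0 => ?_, fun G hG => ?_⟩, hx⟩
  · simp only [Ru.co_z1]
    rcases o with _ | c
    · simp [ww, cc]
    · by_cases hc : c = 0
      · simp [ww, cc, hc]
      · exact Or.inr (Or.inr ⟨c, hc, by simp [ww, cc, hc]⟩)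
  · have h1 := val_unit t (f := ⟨c, h0⟩) fun e => hc (congrArg Subtype.val e)
    have h4 : ((un t ^ t.ord ⟨c, h0⟩ : M3H47.cst v') : L) = (un t : L) ^ t.ord ⟨c, h0⟩ :=
      map_zpow₀ (M3H47.cst v').val _ _
    have h2 := p.ab.le _ (sub_ev_div R.ff h1.le)
    rw [IntermediateField.coe_div, AddSubgroupClass.coe_sub, IntermediateField.coe_div, h4] at h2
    exact ⟨_, _, (H7.res R.ff t).ev_ne_zero h1, h2⟩
  · have h1 := RR.fib_v p hG
    have h2 := RR.fib_top p hG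
    rcases o with _ | c
    · have h3 : G.v y = 0 := by
        rw [ww, Option.elim_none, G.inv] at h1
        omega
      refine ⟨h3, eq_top_iff.2 (h2.ge.trans ?_)⟩
      rw [IntermediateField.adjoin_simple_le_iff, ww, Option.elim_none, ← zpow_neg_one,
        Pl.π_zpow (P := G.pl) h.y0 h3]
      exact zpow_mem (IntermediateField.mem_adjoin_simple_self _ _) _
    · exact ⟨h1, h2⟩

/-- Generation of the residue field does not depend on the place. -/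
theorem gen_pl (P : Pl L k) {y : L} (hy : y ∈ P.o.F 0)
    (h : IntermediateField.adjoin ℂ {P.o.pl.π y} = ⊤) :
    IntermediateField.adjoin ℂ {P.π y} = ⊤ := by
  refine eq_top_iff.2 fun t _ => ?_
  obtain ⟨z, hz, rfl⟩ := P.surj t
  obtain ⟨p, q, e⟩ := (IntermediateField.mem_adjoin_simple_iff ℂ _).1
    (h ▸ IntermediateField.mem_top : P.o.pl.π z ∈ IntermediateField.adjoin ℂ {P.o.pl.π y})
  rw [← π_aeval P.o.pl hy, ← π_aeval P.o.pl hy] at e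
  by_cases h0 : P.o.pl.π (aeval y q) = 0
  · rw [h0, div_zero] at e
    rw [P.π_F1 ((P.o.pl.ker z hz).1 e)]
    exact zero_mem _
  have h1 := Pl.π_eq (P := P.o.pl) (aeval_F hy p) (F_mul0 hz (aeval_F hy q))
    ((P.o.pl.mul _ hz _ (aeval_F hy q)).trans (by rw [e, div_mul_cancel₀ _ h0]))
  have h2 := Pl.π_congr (P := P) (aeval_F hy p) h1
  have h3 : P.π (aeval y q) ≠ 0 := fun e => h0 (P.o.pl.π_F1 ((P.ker _ (aeval_F hy q)).1 e))
  rw [P.mul _ hz _ (aeval_F hy q)] at h2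
  refine (IntermediateField.mem_adjoin_simple_iff ℂ _).2 ⟨p, q, ?_⟩
  rw [← π_aeval P hy, ← π_aeval P hy, ← h2, mul_div_cancel_right₀ _ h3]

variable {d : Dv L} {v v' : VF L} {y : L} {g : ℚ} {C : Co L 2} {x : Loc L} {a : Fin 2 → ℂ}

/-- The leading coefficient of a function on the base. -/
theorem Ctr.lead (h : Ctr d v' y g C x a) {P : Pl L k} (hx : Le x P.o.O) (hz : C.z 0 ∈ P.o.F 1)
    {c : L} (hc : c ≠ 0) (h0 : v' c = 0) : ∃ (n : ℤ) (r : ℂ), r ≠ 0 ∧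
      P.o.v c = n * P.o.v (C.z 0) ∧ P.π (c / C.z 0 ^ n) = algebraMap ℂ k r := by
  obtain ⟨n, r, r0, e⟩ := h.cs c hc h0
  have e1 := F_mul0 (hx _ e) hz
  rw [div_mul_cancel₀ _ (C.ne 0)] at e1
  have e2 := (unit_v r0 e1).2
  rw [div_eq_mul_inv, P.o.mul _ _ hc (inv_ne_zero (zpow_ne_zero _ (C.ne 0))), P.o.inv,
    v_zpow _ (C.ne 0)] at e2
  exact ⟨n, r, r0, by omega, by rw [Pl.π_congr (cst_F P.o r) e1, P.π_cst]⟩

theorem Ctr.res (h : Ctr d v' y g C x a) {P : Pl L k} (hx : Le x P.o.O) (hz : C.z 0 ∈ P.o.F 1)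
    {c : L} (hc : c ∈ P.o.F 0) (h0 : v' c = 0) : P.π c ∈ range (algebraMap ℂ k) := by
  by_cases h1 : c ∈ P.o.F 1
  · exact ⟨0, by rw [P.π_F1 h1, map_zero]⟩
  have c0 : c ≠ 0 := fun e => h1 (Or.inl e)
  obtain ⟨n, r, -, e1, e2⟩ := h.lead hx hz c0 h0
  have h2 := hz.resolve_left (C.ne 0)
  have h3 := hc.resolve_left c0
  have h4 : ¬1 ≤ P.o.v c := fun e => h1 (Or.inr e)
  obtain rfl : n = 0 := (mul_eq_zero.1 (e1.symm.trans (by omega))).resolve_right (by omega)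
  exact ⟨r, by simpa using e2.symm⟩

theorem Ctr.mo (h : Ctr d v' y g C x a) (D : ℤ) (κ : ℂ) (vy : v' y = algebraMap ℂ L κ * y)
    (hy : y ≠ 0) {c : L} (hc : c ≠ 0) (h0 : v' c = 0) (j : ℤ) :
    ∃ n, Mo (c * y ^ j) C x.O n ∧ Iv v' κ D C a n := by
  obtain ⟨n, r, r0, e⟩ := h.cs c hc h0
  have hz := zpow_ne_zero n (C.ne 0)
  have e1 : c / C.z 0 ^ n =
      algebraMap ℂ L r + C.z 0 * ((c / C.z 0 ^ n - algebraMap ℂ L r) / C.z 0) := by
    rw [mul_div_cancel₀ (c / C.z 0 ^ n - algebraMap ℂ L r) (C.ne 0), add_sub_cancel]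
  have m1 := mul_mem (h.rg.st.z 0) e
  have e2 : c / C.z 0 ^ n ∈ x.O := e1 ▸ add_mem (algebraMap_mem _ r) m1
  have e3 : (c / C.z 0 ^ n)⁻¹ ∈ x.O := x.inv_mem _ e2 (by
    rwa [e1, x.ev_add _ (algebraMap_mem _ r) _ m1, x.ev_mul _ (h.rg.st.z 0) _ e, h.rg.ev,
      zero_mul, add_zero, x.ev_alg])
  have v0 : v' (C.z 0) = algebraMap ℂ L ((0 : ℤ) * κ) * C.z 0 := by simp [h.vt]
  rcases h.kind with ⟨h1, -⟩ | ⟨h1, -⟩ | ⟨s, s0, h1, h2⟩
  · refine ⟨![n, j], ⟨_, div_ne_zero hc hz, e2, e3, ?_⟩, Or.inl ⟨0, 1, v0, by simp [h1, vy]⟩⟩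
    simp only [h1, Matrix.cons_val_zero, Matrix.cons_val_one]
    field_simp
  · refine ⟨![n, -j], ⟨_, div_ne_zero hc hz, e2, e3, ?_⟩, Or.inl ⟨0, -1, v0, ?_⟩⟩
    · simp only [h1, Matrix.cons_val_zero, Matrix.cons_val_one, inv_zpow', neg_neg]
      field_simp
    · rw [h1, Derivation.leibniz_inv, vy, smul_eq_mul, Int.cast_neg, Int.cast_one, neg_one_mul,
        map_neg]
      field_simp
  · have y1 : y = C.z 1 + algebraMap ℂ L s := by rw [h1, sub_add_cancel]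
    have y2 : y ∈ x.O := y1 ▸ add_mem (h.rg.st.z 1) (algebraMap_mem _ s)
    have y3 : y⁻¹ ∈ x.O := x.inv_mem _ y2 (by
      rwa [y1, x.ev_add _ (h.rg.st.z 1) _ (algebraMap_mem _ s), h.rg.ev, zero_add, x.ev_alg])
    have key : ∀ m : ℤ, y ^ m ∈ x.O := fun m => by
      cases m with
      | ofNat m => simpa using pow_mem y2 m
      | negSucc m => simpa using pow_mem y3 (m + 1)
    refine ⟨![n, 0], ⟨c / C.z 0 ^ n * y ^ j, mul_ne_zero (div_ne_zero hc hz) (zpow_ne_zero _ hy),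
      mul_mem e2 (key j), ?_, ?_⟩, Or.inr ⟨0, 1, by simp [h2], by simp⟩⟩
    · rw [mul_inv, ← zpow_neg]
      exact mul_mem e3 (key _)
    · simp only [Matrix.cons_val_zero, Matrix.cons_val_one, zpow_zero]
      field_simp

theorem sTyp : STYP := by
  rintro L k _ _ _ _ C₀ d v v' b y u g D P hS hF ⟨c, hc, w, -, j, c0, w0, hu⟩ hG hd
  have : CharZero L := charZero_of_injective_algebraMap (algebraMap ℂ L).injective
  obtain ⟨C, x, a, h, hle⟩ := exists_ctr hS hF (V := P.o.O) (cst_F P.o)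
  have hb := hS.ne
  have hv := hS.prim
  have hg : (g : ℂ) ≠ 0 := by exact_mod_cast hF.g0
  have hg' : (g : L) ≠ 0 := by exact_mod_cast hF.g0
  have hy0 := hF.y0
  have vy : v' y = algebraMap ℂ L (b / g) * y := by
    rw [map_div₀, map_ratCast]
    field_simp
    linear_combination hF.vy
  have ψ0 : c * y ^ j ≠ 0 := mul_ne_zero c0 (zpow_ne_zero _ hy0)
  suffices H : C.z 0 ∈ P.o.F 1 ∧ ∃ σ θ μ, TY1 d v b P σ θ μ ∧ ∃ z, P.o.v z = 1 ∧
      (D ∣ P.o.v (c * y ^ j) → Pw (range (algebraMap ℂ k)) univ σ D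
        (P.π (c * y ^ j / z ^ P.o.v (c * y ^ j)))) by
    obtain ⟨h1, σ, θ, μ, t, z, hz, h2⟩ := H
    exact ⟨σ, θ, μ, t.ne, t.p1, t.ex, t.dl, t.rs, fun c h3 h4 => h.res hle h1 h3 h4,
      fun hD z' hz' => Pw.chg ψ0 w0 hu hz' hz hD h2⟩
  by_cases hm : Dm x P.o.O
  · obtain ⟨n, h1, h2⟩ := h.mo D _ vy hy0 c0 hc j
    exact ⟨(CR.of h.rg hm).pos 0, ty_dm h.rg hm hG h.ad h1 h2 hd hb hF.g0 hv hF.ex⟩
  obtain ⟨π, hπ⟩ := nrm_of hG
  obtain ⟨-, -, ⟨i, hi⟩ | ⟨-, h1⟩⟩ := rCrv L _ x P.o h.rg ⟨⟨π, hπ⟩, hle, hm⟩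
  swap
  · exact (one_ne_zero ((h1 d _ h.ad).uniq hd hπ)).elim
  have e0 : a i = 0 := (hi.exp h.ad).uniq hd hπ
  obtain rfl : i = 0 := by
    by_contra h2
    obtain rfl : i = 1 := by omega
    rcases h.kind with ⟨-, h1⟩ | ⟨-, h1⟩ | ⟨c, -, -, h1⟩
    · exact hg (h1.symm.trans e0)
    · exact hg (neg_eq_zero.1 (h1.symm.trans e0))
    · exact one_ne_zero (h1.symm.trans e0)
  obtain ⟨f1, f2⟩ := h.fib P.o hi
  have hyF : y ∈ P.o.F 0 := Or.inr f1.ge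
  have vi : v' y⁻¹ = algebraMap ℂ L (-(b / g)) * y⁻¹ := by
    rw [Derivation.leibniz_inv, vy, map_neg, smul_eq_mul]
    field_simp
  have hL : v' ∈ LV P.o 0 := hi.adp.mem_LV.2 ⟨by rw [h.vt]; exact zero_mem _, fun j hj => by
    obtain rfl : j = 1 := by omega
    rcases h.kind with ⟨h1, -⟩ | ⟨h1, -⟩ | ⟨c, -, h1, -⟩
    · rw [h1, vy]
      exact F_mul0 (cst_F _ _) hyF
    · rw [h1, vi]
      exact F_mul0 (cst_F _ _) (Or.inr (by rw [P.o.inv, f1]; simp))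
    · rw [h1, map_sub, Derivation.map_algebraMap, sub_zero, vy]
      exact F_mul0 (cst_F _ _) hyF⟩
  have hδ : d.δ v' = algebraMap ℂ L b := by
    have := d.δ_Ex hF.ex
    rw [map_sub, hv] at this
    linear_combination -this
  have z1 : C.z 0 ∈ P.o.F 1 := Or.inr hi.adp.vz.ge
  obtain ⟨θ, μ, t⟩ := (ty0 (Θ := algebraMap ℂ L (g / b) • v') (μ := g) hi.adp hy0 f1
    (gen_pl P hyF f2) (fun w hw => by
      rcases h.kind with ⟨h1, -⟩ | ⟨h1, -⟩ | ⟨c, -, h1, -⟩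
      · rwa [h1] at hw
      · have h2 := Pl.π_zpow (P := P) hy0 f1 (-1)
        rw [zpow_neg_one, zpow_neg_one] at h2
        rw [h1, h2] at hw
        rw [← inv_inv (P.π y), Derivation.leibniz_inv, hw, smul_zero]
      · rwa [h1, Pl.π_sub hyF (cst_F _ c), P.π_cst, map_sub, Derivation.map_algebraMap,
          sub_zero] at hw) (LV_smul0 (cst_F _ _) hL) (by
      rw [Derivation.smul_apply, vy, smul_eq_mul, ← mul_assoc, ← map_mul, div_mul_div_cancel₀ hb,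
        div_self hg, map_one, one_mul]) (by
      rw [d.δ_cst, hδ, ← map_mul, div_mul_cancel₀ _ hb, sub_self]
      exact zero_mem _) hd hb hF.g0 hv).2 1 v' hF.ex hL (by simpa using vy)
  obtain ⟨n, r, r0, e1, e2⟩ := h.lead hle z1 c0 hc
  have e3 : P.o.v (y ^ j) = 0 := by rw [v_zpow _ hy0, f1, mul_zero]
  have e4 : c / C.z 0 ^ n ∈ P.o.F 0 := by
    have := F_div (P.o.mem_F_self c) (C.z 0 ^ n)
    rwa [v_zpow _ (C.ne 0), e1, sub_self] at this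
  refine ⟨z1, _, θ, μ, t, _, hi.adp.vz, fun _ => ⟨_, ⟨r, rfl⟩, 1, trivial, j, by simpa using r0,
    one_ne_zero, ?_⟩⟩
  rw [P.o.mul _ _ c0 (zpow_ne_zero _ hy0), e1, e3, hi.adp.vz, mul_one, add_zero, mul_div_right_comm,
    P.mul _ e4 _ (Or.inr e3.ge), e2, Pl.π_zpow hy0 f1, one_zpow, mul_one]

end

end Pool.Agent.MP_5d9b3c_ag.P3B
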