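import Pool.Agent.MP_5d9b3c_ag.P3B.TDefs
import Pool.Agent.MP_ee8c61_ag.M3BK.RType
import Pool.Agent.MP_ee8c61_ag.M3H47.Rat

/-!
The tower of quadratic transforms with a monomial function.
-/

namespace Pool.Agent.MP_5d9b3c_ag.P3B

open Pool.Agent.MP_ee8c61_ag M3 M3RESID M3BK Set M3BK.Cr
open Pool.Agent.MP_96693b_ag.RS (Loc)

noncomputable section

variable {L k : Type} [Field L] [Algebra ℂ L] [Field k] [Algebra ℂ k]

/-! ### The projective line -/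

theorem p1_rl {σ : k} {θ : VF k} (h : P1 σ θ) : M3H47.Rl (⊥ : IntermediateField ℂ k) σ := by
  refine M3H47.rl_of (h.tr.extendScalars _) (eq_top_iff.2 fun z _ => ?_)
  have : IntermediateField.adjoin ℂ {σ} ≤ (IntermediateField.adjoin
      (⊥ : IntermediateField ℂ k) {σ}).restrictScalars ℂ :=
    IntermediateField.adjoin_simple_le_iff.2 (IntermediateField.mem_adjoin_simple_self _ σ)
  exact this (h.gen ▸ IntermediateField.mem_top)

theorem p1_ne {σ : k} {θ : VF k} (h : P1 σ θ) : σ ≠ 0 := fun e => h.tr (e ▸ isAlgebraic_zero)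

/-- The constants of the Euler field. -/
theorem p1_ker {σ : k} {θ : VF k} (h : P1 σ θ) {t : k} (ht : θ t = 0) :
    t ∈ range (algebraMap ℂ k) :=
  IntermediateField.mem_bot.1 (M3H47.ker_le (p1_rl h) θ (fun c hc => by
    obtain ⟨r, rfl⟩ := IntermediateField.mem_bot.1 hc
    exact θ.map_algebraMap r) (h.eul.symm ▸ p1_ne h) ht)

theorem p1_inv {σ : k} {θ : VF k} (h : P1 σ θ) : P1 σ⁻¹ (-θ) where
  tr e := h.tr (IsAlgebraic.inv_iff.1 e)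
  gen := eq_top_iff.2 (h.gen.ge.trans (IntermediateField.adjoin_simple_le_iff.2 (by
    simpa using inv_mem (IntermediateField.mem_adjoin_simple_self ℂ σ⁻¹))))
  eul := by
    have := p1_ne h
    rw [Derivation.neg_apply, Derivation.leibniz_inv, h.eul, smul_eq_mul]
    field_simp

/-- An affine change of the coordinate. -/
theorem p1_aff {σ : k} {θ θ' : VF k} (h : P1 σ θ) {r : ℂ} (hr : r ≠ 0) (c : ℂ) {s : k}
    (hs : s = algebraMap ℂ k r * σ + algebraMap ℂ k c) (e : θ' s = s) : P1 s θ' := by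
  have h0 : algebraMap ℂ k r ≠ 0 := by simpa using hr
  have h1 : σ = (s - algebraMap ℂ k c) / algebraMap ℂ k r := by
    rw [hs, add_sub_cancel_right, mul_div_cancel_left₀ _ h0]
  refine ⟨?_, eq_top_iff.2 (h.gen.ge.trans (IntermediateField.adjoin_simple_le_iff.2 ?_)), e⟩
  · by_contra h2
    obtain ⟨t, ht⟩ := cst_of_alg h2
    rw [← ht, ← map_sub, ← map_div₀] at h1
    exact h.tr (h1 ▸ isAlgebraic_algebraMap _)
  · rw [h1]
    exact div_mem (sub_mem (IntermediateField.mem_adjoin_simple_self ℂ s)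
      (IntermediateField.algebraMap_mem _ c)) (IntermediateField.algebraMap_mem _ r)

/-- The shift of the coordinate. -/
theorem shift {σ : k} {θ w : VF k} {e : Dv k} {b : ℂ} (h : P1 σ θ) (h1 : e.δ θ = 1) (hb : b ≠ 0)
    (hw : e.δ w = algebraMap ℂ k b) : ∃ s, P1 s (algebraMap ℂ k b⁻¹ • w) := by
  have h0 := p1_ne h
  have hb' : algebraMap ℂ k b ≠ 0 := by simpa using hb
  have e1 : w = (w σ / σ) • θ := sub_eq_zero.1 (der_zero h.gen (by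
    rw [Derivation.sub_apply, Derivation.smul_apply, h.eul, smul_eq_mul, div_mul_cancel₀ _ h0,
      sub_self]))
  obtain ⟨t, ht⟩ : ∃ t, t = w σ / σ := ⟨_, rfl⟩
  have e2 : w σ = t * σ := by rw [ht, div_mul_cancel₀ _ h0]
  rw [← ht] at e1
  have e3 := hw
  rw [e1, e.smul, h1] at e3
  obtain ⟨c, hc⟩ := p1_ker h (t := w σ - algebraMap ℂ k b * σ) (by
    rw [e2, map_sub, Derivation.leibniz, Derivation.leibniz, Derivation.map_algebraMap, h.eul]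
    simp only [smul_eq_mul]
    linear_combination σ * e3)
  refine ⟨_, p1_aff h one_ne_zero (c / b) rfl ?_⟩
  rw [Derivation.smul_apply, map_add, Derivation.map_algebraMap, map_one, one_mul, map_div₀, hc,
    map_inv₀, smul_eq_mul]
  field_simp
  ring

/-! ### The type in adapted coordinates -/

/-- The part of the type that concerns the vector field. -/
structure TY1 (d : Dv L) (v : VF L) (b : ℂ) (P : Pl L k) (σ : k) (θ : VF k) (μ : ℚ) : Prop where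
  ne : μ ≠ 0
  p1 : P1 σ θ
  ex : ∃ e, P.RsD d e
  dl : ∀ e, P.RsD d e → e.δ θ = algebraMap ℂ k μ
  rs : ∀ w, P.Res d v w ↔ w = algebraMap ℂ k (b / μ) • θ

theorem ty0 {C : Co L 2} {P : Pl L k} {d : Dv L} {v Θ : VF L} {b μ : ℂ} {y : L} {g : ℚ}
    (h : C.At P.o 0) (hy0 : y ≠ 0) (hy : P.o.v y = 0)
    (gen : IntermediateField.adjoin ℂ {P.π y} = ⊤)
    (hs : ∀ w : VF k, w (P.π (C.z 1)) = 0 → w (P.π y) = 0) (hΘ : Θ ∈ LV P.o 0)
    (hΘy : Θ y = y) (hμ : d.δ Θ - algebraMap ℂ L μ ∈ P.o.F 1) (hd : Exp d P.o 0) (hb : b ≠ 0)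
    (hg : g ≠ 0) (hv : d.δ v = algebraMap ℂ L b) :
    (∀ n : ℤ, n * μ = 1 → (∃ θ μ', TY1 d v b P (P.π y) θ μ') ∨
      ((n = 1 ∨ n = -1) ∧ ∃ σ θ μ', TY1 d v b P σ θ μ')) ∧
    ∀ (n : ℤ) (v' : VF L), v - v' ∈ d.Ex → v' ∈ LV P.o 0 →
      v' y = algebraMap ℂ L (n * (b / g)) * y → ∃ θ μ', TY1 d v b P (P.π y) θ μ' := by
  have hyF : y ∈ P.o.F 0 := Or.inr hy.ge
  have hσ : P.π y ≠ 0 := Pl.π_ne hy0 hy
  obtain ⟨θ, hθ⟩ := Pl.exists_Rs (P := P) hΘ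
  have eul : θ (P.π y) = P.π y := by rw [← hθ.2 y hyF, hΘy]
  have tr : Transcendental ℂ (P.π y) := by
    by_contra h1
    obtain ⟨c, hc⟩ := cst_of_alg h1
    rw [← hc, Derivation.map_algebraMap, hc] at eul
    exact hσ eul.symm
  have hP : P1 (P.π y) θ := ⟨tr, gen, eul⟩
  have hδ : ∀ e, P.RsD d e → e.δ θ = algebraMap ℂ _ μ := fun e he => by
    rw [← he _ _ hθ, Pl.π_congr (cst_F P.o μ) hμ, P.π_cst]
  obtain ⟨C', hC'⟩ := Pl.exists_RsC (P := P) h fun w hw => der_zero gen (hs w (hw 0))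
  obtain ⟨e, he⟩ := Pl.exists_RsD (P := P) hd h.vz (hC'.lift h)
  obtain ⟨w, hw⟩ := Pl.exists_Res (P := P) hd (v := v) (hv ▸ cst_F P.o b)
  have hu : ∀ w', P.Res d v w' ↔ w' = w := fun w' =>
    ⟨fun hr => sub_eq_zero.1 (Ex_one C' e (Pl.Res.uniq hC' h hd he hr hw)), fun e => e ▸ hw⟩
  have hwb : e.δ w = algebraMap ℂ _ b := by rw [hw.δ he, hv, P.π_cst]
  have hex : ∀ (w : VF k) (t : k), w (P.π y) = t * P.π y → w = t • θ :=
    fun w t e => sub_eq_zero.1 (der_zero gen (by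
      rw [Derivation.sub_apply, Derivation.smul_apply, eul, e, smul_eq_mul, sub_self]))
  have one : ∀ (σ : k) (θ : VF k), P1 σ θ → e.δ θ = 1 → ∃ σ θ μ', TY1 d v b P σ θ μ' :=
    fun σ θ h1 h2 => by
      obtain ⟨s, hs⟩ := shift h1 h2 hb hwb
      refine ⟨s, _, 1, one_ne_zero, hs, ⟨e, he⟩, fun e' he' => ?_, fun w' => ?_⟩
      · rw [he'.uniq he (hC'.lift h), e.δ_cst, hwb, ← map_mul, inv_mul_cancel₀ hb, Rat.cast_one]
      · rw [hu, smul_smul, ← map_mul, Rat.cast_one, div_one, mul_inv_cancel₀ hb, map_one,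
          one_smul]
  refine ⟨fun n hn => ?_, fun n v' h1 h2 h3 => ?_⟩
  · have hμ0 : μ ≠ 0 := fun e => by simp [e] at hn
    by_cases hm : ∃ m : ℤ, μ = m
    · obtain ⟨m, rfl⟩ := hm
      have : n * m = 1 := by exact_mod_cast hn
      rcases Int.eq_one_or_neg_one_of_mul_eq_one' this with ⟨rfl, rfl⟩ | ⟨rfl, rfl⟩
      · exact Or.inr ⟨Or.inl rfl, one _ _ hP (by simpa using hδ e he)⟩
      · exact Or.inr ⟨Or.inr rfl, one _ _ (p1_inv hP) (by simp [hδ e he])⟩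
    have hq : μ = ((n : ℚ)⁻¹ : ℚ) := by
      push_cast
      exact eq_inv_of_mul_eq_one_right hn
    refine Or.inl ⟨θ, (n : ℚ)⁻¹, fun e => hμ0 (by rw [hq, e, Rat.cast_zero]), hP, ⟨e, he⟩,
      hq ▸ hδ, fun w' => ?_⟩
    rw [hu, ← hq]
    refine Eq.congr_right ?_
    have e1 := hex w (w (P.π y) / P.π y) (div_mul_cancel₀ _ hσ).symm
    have e2 := hwb
    rw [e1, e.smul, hδ e he] at e2
    rw [e1]
    congr 1
    by_contra h0
    refine hm (eig_int hP (sub_ne_zero.2 h0) ?_)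
    have e3 : algebraMap ℂ k μ * algebraMap ℂ k (b / μ) = algebraMap ℂ k b := by
      rw [← map_mul, mul_div_cancel₀ _ hμ0]
    rw [map_sub, Derivation.map_algebraMap]
    linear_combination e2 - e3
  · obtain ⟨w₀, h4⟩ := Pl.exists_Rs (P := P) h2
    have e1 : w₀ = algebraMap ℂ k (n * (b / g)) • θ := hex _ _ (by
      rw [← h4.2 y hyF, h3, P.mul _ (cst_F P.o _) _ hyF, P.π_cst])
    have h5 : w₀ = w := (hu _).1 ⟨v - v', h1, by rwa [sub_sub_cancel]⟩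
    have e2 := hwb
    rw [← h5, e1, e.δ_cst, hδ e he, ← map_mul] at e2
    have e3 : n * (b / g) * μ = b := (algebraMap ℂ k).injective e2
    have hg' : (g : ℂ) ≠ 0 := by exact_mod_cast hg
    have hn : (n : ℂ) ≠ 0 := fun e => hb (by rw [← e3, e, zero_mul, zero_mul])
    have hq : μ = ((g / n : ℚ) : ℂ) := by
      push_cast
      field_simp at e3 ⊢
      linear_combination e3
    have hμ0 : μ ≠ 0 := fun e => hb (by rw [← e3, e, mul_zero])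
    refine ⟨θ, g / n, fun e => hμ0 (by rw [hq, e, Rat.cast_zero]), hP, ⟨e, he⟩, hq ▸ hδ,
      fun w' => ?_⟩
    rw [hu, ← hq, ← h5, e1, (div_eq_iff hμ0).2 e3.symm]

/-! ### Monomial functions -/

/-- `ψ` is a unit of `O` times the monomial `n`. -/
def Mo (ψ : L) (C : Co L 2) (O : Subalgebra ℂ L) (n : Fin 2 → ℤ) : Prop :=
  ∃ ε, ε ≠ 0 ∧ ε ∈ O ∧ ε⁻¹ ∈ O ∧ ψ = ε * (C.z 0 ^ n 0 * C.z 1 ^ n 1)

open Classical in
/-- The orders after the transform. -/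
def qn (c : ℂ) (n : Fin 2 → ℤ) : Fin 2 → ℤ := ![n 0 + n 1, if c = 0 then n 1 else 0]

variable {ψ : L} {C : Co L 2} {O : Subalgebra ℂ L} {n : Fin 2 → ℤ}

theorem Mo.of {x : Loc L} (h : x.ev (ψ / C.mon n) ≠ 0) : Mo ψ C x.O n := by
  have h1 : ψ / C.mon n ∈ x.O := by_contra fun e => h (x.ev_out _ e)
  refine ⟨_, Loc.ne_zero_of_ev h, h1, x.inv_mem _ h1 h, ?_⟩
  rw [← Fin.prod_univ_two fun i => C.z i ^ n i]
  exact (div_mul_cancel₀ _ (C.mon_ne n)).symm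

theorem Mo.sw (h : Mo ψ C O n) : Mo ψ (sw C) O ![n 1, n 0] := by
  obtain ⟨ε, h1, h2, h3, e⟩ := h
  exact ⟨ε, h1, h2, h3, e.trans (congrArg _ (mul_comm _ _))⟩

theorem mon_sg (C : Co L 2) (n : Fin 2 → ℤ) :
    C.z 0 ^ n 0 * C.z 1 ^ n 1 = C.z 0 ^ (n 0 + n 1) * sg C ^ n 1 := by
  rw [z1_eq, mul_zpow, zpow_add₀ (C.ne 0), mul_assoc]

theorem Mo.qt (h : Mo ψ C O n) (c : ℂ) : Mo ψ (qt C c) (ex C O c) (qn c n) := by
  obtain ⟨ε, h1, h2, h3, e⟩ := h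
  rw [mon_sg] at e
  by_cases hc : c = 0
  · subst hc
    exact ⟨ε, h1, le_ex h2, le_ex h3, by simpa [qn, qt_z0, qt_z1'] using e⟩
  · have key : ∀ m : ℤ, sg C ^ m ∈ ex C O c := fun m => by
      cases m with
      | ofNat m => simpa using pow_mem sg_ex m
      | negSucc m => simpa using pow_mem (inv_ex hc) (m + 1)
    refine ⟨ε * sg C ^ n 1, mul_ne_zero h1 (zpow_ne_zero _ (sg_ne C)),
      mul_mem (le_ex h2) (key _), ?_, ?_⟩
    · rw [mul_inv, ← zpow_neg]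
      exact mul_mem (le_ex h3) (key _)
    · simp only [qn, qt_z0, if_neg hc, Matrix.cons_val_zero, Matrix.cons_val_one, zpow_zero, e]
      ring

/-- The residue of the monomial function on the exceptional curve. -/
theorem Mo.fin {P : Pl L k} (h : Mo ψ C O n) (hc : CR P.o C O) (hn : NC P.o (sg C))
    (hN : Nrm P.o) : P.o.v ψ = n 0 + n 1 ∧
      ∃ c : ℂ, c ≠ 0 ∧ P.π (ψ / C.z 0 ^ P.o.v ψ) = algebraMap ℂ k c * P.π (sg C) ^ n 1 := by
  obtain ⟨ε, h1, h2, h3, e⟩ := h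
  rw [mon_sg] at e
  have a1 := (hc.le _ h2).resolve_left h1
  have a2 := (hc.le _ h3).resolve_left (inv_ne_zero h1)
  rw [P.o.inv] at a2
  have a3 : P.o.v ε = 0 := by omega
  have z1 := zpow_ne_zero (n 0 + n 1) (C.ne 0)
  have z2 := zpow_ne_zero (n 1) (sg_ne C)
  have a4 : P.o.v (sg C ^ n 1) = 0 := by rw [v_zpow _ hn.v.1, hn.v.2, mul_zero]
  have a5 : P.o.v ψ = n 0 + n 1 := by
    rw [e, P.o.mul _ _ h1 (mul_ne_zero z1 z2), P.o.mul _ _ z1 z2, a3, a4, v_zpow _ (C.ne 0),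
      hc.v0 hn hN]
    ring
  obtain ⟨c, h4, -⟩ := hc.res h2
  have a6 : P.π ε = algebraMap ℂ k c := by rw [Pl.π_congr (cst_F P.o c) h4, P.π_cst]
  refine ⟨a5, c, fun e => Pl.π_ne h1 a3 (by rw [a6, e, map_zero]), ?_⟩
  rw [a5, e, mul_left_comm, mul_div_cancel_left₀ _ z1, P.mul _ (hc.le _ h2) _ (Or.inr a4.ge), a6,
    Pl.π_zpow hn.v.1 hn.v.2]

/-- Change of the function by a power and change of the uniformizer. -/
theorem Pw.chg {P : Pl L k} {S : Set k} {σ : k} {D : ℤ} {u w z z₀ : L} (h0 : ψ ≠ 0) (hw : w ≠ 0)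
    (hu : u = ψ * w ^ D) (hz : P.o.v z = 1) (hz₀ : P.o.v z₀ = 1) (hD : D ∣ P.o.v u)
    (h : D ∣ P.o.v ψ → Pw S univ σ D (P.π (ψ / z₀ ^ P.o.v ψ))) :
    Pw S univ σ D (P.π (u / z ^ P.o.v u)) := by
  have z1 : z ≠ 0 := fun e => by simp [e, P.o.zero] at hz
  have z2 : z₀ ≠ 0 := fun e => by simp [e, P.o.zero] at hz₀
  obtain ⟨m, hm⟩ := hD
  have e1 : P.o.v ψ = D * (m - P.o.v w) := by
    rw [hu, P.o.mul _ _ h0 (zpow_ne_zero _ hw), v_zpow _ hw] at hm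
    linear_combination hm
  obtain ⟨c, hc, g, -, j, c0, g0, e⟩ := h ⟨_, e1⟩
  obtain ⟨t, ht⟩ : ∃ t, t = z₀ ^ (m - P.o.v w) * w / z ^ m := ⟨_, rfl⟩
  have t0 : t ≠ 0 := ht ▸ div_ne_zero (mul_ne_zero (zpow_ne_zero _ z2) hw) (zpow_ne_zero _ z1)
  have t1 : P.o.v t = 0 := by
    rw [ht, div_eq_mul_inv, P.o.mul _ _ (mul_ne_zero (zpow_ne_zero _ z2) hw)
      (inv_ne_zero (zpow_ne_zero _ z1)), P.o.mul _ _ (zpow_ne_zero _ z2) hw, P.o.inv,
      v_zpow _ z1, v_zpow _ z2, hz, hz₀]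
    ring
  have e2 : u / z ^ P.o.v u = ψ / z₀ ^ P.o.v ψ * t ^ D := by
    have := zpow_ne_zero (D * (m - P.o.v w)) z2
    rw [hm, e1, ht, div_zpow, mul_zpow, ← zpow_mul, ← zpow_mul, mul_comm _ D, mul_comm m D, hu]
    field_simp
  have e3 : ψ / z₀ ^ P.o.v ψ ∈ P.o.F 0 := by
    have := F_div (P.o.mem_F_self ψ) (z₀ ^ P.o.v ψ)
    rwa [v_zpow _ z2, hz₀, mul_one, sub_self] at this
  refine ⟨c, hc, g * P.π t, trivial, j, c0, mul_ne_zero g0 (Pl.π_ne t0 t1), ?_⟩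
  rw [e2, P.mul _ e3 _ (Or.inr (by rw [v_zpow _ t0, t1, mul_zero])), e, Pl.π_zpow t0 t1, mul_zpow,
    mul_assoc]

/-! ### The invariant -/

/-- The field is linear in the coordinates, or the pairs of exponents and orders generate. -/
def Iv (v : VF L) (κ : ℂ) (D : ℤ) (C : Co L 2) (a : Fin 2 → ℂ) (n : Fin 2 → ℤ) : Prop :=
  (∃ α β : ℤ, v (C.z 0) = algebraMap ℂ L (α * κ) * C.z 0 ∧
    v (C.z 1) = algebraMap ℂ L (β * κ) * C.z 1) ∨
    ∃ α β : ℤ, α * a 0 + β * a 1 = 1 ∧ D ∣ α * n 0 + β * n 1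

variable {v v' : VF L} {κ : ℂ} {D : ℤ} {a : Fin 2 → ℂ}

theorem lin_sg' {α β : ℤ} (h : v (C.z 0) = algebraMap ℂ L (α * κ) * C.z 0)
    (h' : v (C.z 1) = algebraMap ℂ L (β * κ) * C.z 1) :
    v (sg C) = algebraMap ℂ L ((β - α : ℤ) * κ) * sg C := by
  rw [lin_sg h h', Int.cast_sub, sub_mul (β : ℂ)]

theorem Iv.sw (h : Iv v κ D C a n) : Iv v κ D (sw C) ![a 1, a 0] ![n 1, n 0] := by
  rcases h with ⟨α, β, h1, h2⟩ | ⟨α, β, h1, h2⟩
  · exact Or.inl ⟨β, α, h2, h1⟩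
  · exact Or.inr ⟨β, α, (add_comm _ _).trans h1, add_comm (α * n 0) _ ▸ h2⟩

theorem Iv.qt (h : Iv v κ D C a n) (c : ℂ) : Iv v κ D (qt C c) (qv c a) (qn c n) := by
  by_cases hc : c = 0
  · subst hc
    rcases h with ⟨α, β, h1, h2⟩ | ⟨α, β, h1, h2⟩
    · exact Or.inl ⟨α, β - α, h1, by rw [qt_z1', lin_sg' h1 h2]⟩
    · refine Or.inr ⟨α, β - α, ?_, ?_⟩
      · simp only [qv, if_true, Matrix.cons_val_zero, Matrix.cons_val_one, Int.cast_sub]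
        linear_combination h1
      · simp only [qn, if_true, Matrix.cons_val_zero, Matrix.cons_val_one]
        rwa [show α * (n 0 + n 1) + (β - α) * n 1 = α * n 0 + β * n 1 by ring]
  · exact Or.inr ⟨0, 1, by simp [qv, hc], by simp [qn, hc]⟩

/-- The type of a curve that is contracted to a point. -/
theorem ty_dm {x : Loc L} {P : Pl L k} {d : Dv L} {b : ℂ} {g : ℚ} (h : Rg C x)
    (hm : Dm x P.o.O) (hG : Dvs P.o) (ha : C.Ad x.O d a) (hψ : Mo ψ C x.O n)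
    (hi : Iv v' (b / g) D C a n) (hd : Exp d P.o 0) (hb : b ≠ 0) (hg : g ≠ 0)
    (hv : d.δ v = algebraMap ℂ L b) (hv' : v - v' ∈ d.Ex) :
    ∃ σ θ μ, TY1 d v b P σ θ μ ∧ ∃ z, P.o.v z = 1 ∧
      (D ∣ P.o.v ψ → Pw (range (algebraMap ℂ k)) univ σ D (P.π (ψ / z ^ P.o.v ψ))) := by
  obtain ⟨C, O, h, ⟨a, n, ha, hψ, hi⟩, hn⟩ := iter hG
    (fun C O => ∃ a n, C.Ad O d a ∧ Mo ψ C O n ∧ Iv v' (b / g) D C a n)
    (fun C O _ ⟨a, n, h1, h2, h3⟩ => ⟨_, _, ad_sw h1, h2.sw, h3.sw⟩)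
    (fun C O c h ⟨a, n, h1, h2, h3⟩ => ⟨_, _, ad_qt h.st h1, h2.qt c, h3.qt c⟩) (CR.of h hm)
    ⟨a, n, ha, hψ, hi⟩
  have hN := nrm_of hG
  have hA := (h.dat hn hN).adp
  have e0 : a 0 + a 1 = 0 := (h.exp hn hN ha).uniq hd hA.vz
  obtain ⟨k1, k2⟩ := ty0 hA hn.v.1 hn.v.2 (CR.gen P h hn hN) (fun w hw => by rwa [qt_z1'] at hw)
    (h.th_LV hn hN) (th1_sg C) (h.δ_th ha 1) hd hb hg hv
  obtain ⟨e1, c, c0, e2⟩ := hψ.fin h hn hN
  have c1 : algebraMap ℂ k c ≠ 0 := by simpa using c0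
  have same : (∃ θ μ, TY1 d v b P (P.π (sg C)) θ μ) → ∃ σ θ μ, TY1 d v b P σ θ μ ∧
      ∃ z, P.o.v z = 1 ∧ (D ∣ P.o.v ψ →
        Pw (range (algebraMap ℂ k)) univ σ D (P.π (ψ / z ^ P.o.v ψ))) := fun ⟨θ, μ, t⟩ =>
    ⟨_, θ, μ, t, _, h.v0 hn hN, fun _ => ⟨_, ⟨c, rfl⟩, 1, trivial, n 1, c1, one_ne_zero, by
      rw [e2, one_zpow, mul_one]⟩⟩
  rcases hi with ⟨α, β, h1, h2⟩ | ⟨α, β, h1, h2⟩
  · refine same (k2 (β - α) v' hv' (hA.mem_LV.2 ⟨?_, fun j hj => ?_⟩) (lin_sg' h1 h2))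
    · rw [qt_z0, h1, zero_add]
      exact F_mul0 (cst_F _ _) (h.pos 0)
    · obtain rfl : j = 1 := by omega
      rw [qt_z1', lin_sg h1 h2]
      exact F_mul0 (cst_F _ _) hn.1
  rcases k1 (β - α) (by push_cast; linear_combination h1 - α * e0) with t | ⟨h3, σ, θ, μ, t⟩
  · exact same t
  refine ⟨σ, θ, μ, t, _, h.v0 hn hN, fun hD => ?_⟩
  rw [e1] at hD
  have h4 := dvd_sub h2 (hD.mul_left α)
  rw [show α * n 0 + β * n 1 - α * (n 0 + n 1) = (β - α) * n 1 by ring] at h4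
  obtain ⟨m, hm⟩ : D ∣ n 1 := by
    rcases h3 with h3 | h3 <;> simpa [h3] using h4
  refine ⟨_, ⟨c, rfl⟩, P.π (sg C) ^ m, trivial, 0, c1,
    zpow_ne_zero _ (Pl.π_ne hn.v.1 hn.v.2), ?_⟩
  rw [e2, hm, zpow_zero, mul_one, ← zpow_mul, mul_comm m]

end

end Pool.Agent.MP_5d9b3c_ag.P3B
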