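import Pool.Agent.MP_5d9b3c_ag.P3B.XGal
import Pool.Agent.MP_ee8c61_ag.M3BK.RPt
import Pool.Agent.MP_ee8c61_ag.M3BK.RSurfA

/-! The cross function of a double curve, for arbitrary adapted coordinates. -/

namespace Pool.Agent.MP_5d9b3c_ag.P3B

open Pool.Agent.MP_ee8c61_ag Pool.Agent.MP_ee8c61_ag.M3BK M3 M3RESID Set P3
open Pool.Agent.MP_96693b_ag.RS (Loc LocOf)

section Gen

variable {K k k' : Type} [Field K] [Algebra ℂ K] [Field k] [Algebra ℂ k] [Field k'] [Algebra ℂ k']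
  {C C₀ : Co K 3} {Q : Loc K} {i i' i₀ i₀' : Fin 3} {P : Pl K k} {C2 : Co k 2} {x : Loc k}
  {m : Fin 2} {G : DV k}

/-- Two equations of one divisor differ by a unit. -/
theorem dat_ratio {n : ℕ} {C C₀ : Co K n} {i i₀ : Fin n} {o : DV K} (h : Rg C Q) (h₀ : Rg C₀ Q)
    (d : C.Dat Q.O o i) (d₀ : C₀.Dat Q.O o i₀) : Q.ev (C₀.z i₀ / C.z i) ≠ 0 :=
  RPt.u_of (d.div _ (h₀.st.z i₀) (Or.inr d₀.adp.vz.ge))
    (by rw [inv_div]; exact d₀.div _ (h.st.z i) (Or.inr d.adp.vz.ge))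
    (div_ne_zero (C₀.ne _) (C.ne _))

/-- Change of the coordinates at a point of a double curve. -/
theorem tw_chg (T : Tw C Q i i' P C2 x m G) {o' : DV K} (d' : C.Dat Q.O o' i') (h₀ : Rg C₀ Q)
    (d₀ : C₀.Dat Q.O P.o i₀) (d₀' : C₀.Dat Q.O o' i₀') (hn : i₀' ≠ i₀) :
    ∃ C20 m₀, Tw C₀ Q i₀ i₀' P C20 x m₀ G := by
  obtain ⟨C', x', h1, h2, h3⟩ := RFl.res h₀ d₀
  obtain rfl : x' = x := h2.uniq ⟨T.dat.le, T.ro⟩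
  obtain ⟨m₀, hm⟩ := Fin.exists_succAbove_eq hn
  refine ⟨C', m₀, h₀, d₀, h1, T.ro, T.ev, h3, hm, RSurf.dat_of_le h3 T.dat2.le
    ((rFl k _ _ m T.rg2).2.2.1 G T.dat2).1.2.2 ?_⟩
  have u := M3.un_lift.1 (un_of_ev T.le (dat_ratio T.rg h₀ d' d₀'))
  rw [h1 m₀, hm, ← div_mul_cancel₀ (C₀.z i₀') (C.ne i'), P.mul _ u.1 _ (T.dat.adp.z_F _), ← T.z2,
    G.mul _ _ u.2.1 (C2.ne m), u.2.2, T.dat2.adp.vz, zero_add]

end Gen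

variable {k k' : Type} [Field k] [Algebra ℂ k] [Field k'] [Algebra ℂ k'] {f : Po 3} {M : Mod 3}
  {o o' : M.J} {P : Pl (KK 3) k} {P' : Pl (KK 3) k'} {G : DV k} {G' : DV k'} {Q₀ : Loc (KK 3)}
  {C₀ : Co (KK 3) 3} {i₀ i₀' : Fin 3} {C20 : Co k 2} {x₀ : Loc k} {m₀ : Fin 2} {C20' : Co k' 2}
  {x₀' : Loc k'} {m₀' : Fin 2}

/-- A point of a double curve in the coordinates of the model. -/
theorem tw_pt (E : M3E.EOut) (hf : f ≠ 0) (hM : M.OK f) (hQ : Q₀ ∈ M.pts) (ho : P.o = M.v o)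
    (ho' : P'.o = M.v o') (T : Tw C₀ Q₀ i₀ i₀' P C20 x₀ m₀ G)
    (T' : Tw C₀ Q₀ i₀' i₀ P' C20' x₀' m₀' G') : ∃ C lab i i' C2 m C2' m', Pt3 M f Q₀ C lab ∧
      lab i = some o ∧ lab i' = some o' ∧ Tw C Q₀ i i' P C2 x₀ m G ∧
      Tw C Q₀ i' i P' C2' x₀' m' G' := by
  obtain ⟨C, lab, hP⟩ := rPt E f M hf hM
  have hp := hP Q₀ hQ
  obtain ⟨i, li⟩ := (hp.on o).1 fun g hg => ho ▸ T.dat.le g hg
  obtain ⟨i', li'⟩ := (hp.on o').1 fun g hg => ho' ▸ T'.dat.le g hg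
  have d := ho ▸ hp.dat i o li
  have d' := ho' ▸ hp.dat i' o' li'
  have hn : i' ≠ i := fun e => by
    have e1 : o' = o := Option.some.inj (li'.symm.trans (e ▸ li))
    have h1 := T.dat.adp.v i₀'
    rw [if_neg T.ne, ho, ← e1, ← ho', T'.dat.adp.vz] at h1
    exact one_ne_zero h1
  obtain ⟨C2, m, h1⟩ := tw_chg T T'.dat hp.rg d d' hn
  obtain ⟨C2', m', h2⟩ := tw_chg T' T.dat hp.rg d' d hn.symm
  exact ⟨_, _, i, i', C2, m, C2', m', hp, li, li', h1, h2⟩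

variable {la : ℚ} {b : Polynomial ℂ} {β : Fin 3 → H59.PX 3 (KK 3)} {q : H59.PX 3 (KK 3)} {e : Dv k}
  {v : VF k} {e' : Dv k'} {v' : VF k'} {ψ : k} {ψ' : k'} {σ : G.kf} {θ : VF G.kf}

/-- The cross function of a double curve is a monomial. -/
theorem crp2 (E : M3E.EOut) {μ : ℂ} (hy : Hyp f la b β q) (hM : M.OK f) (ho : P.o = M.v o)
    (ho' : P'.o = M.v o') (eo : M.ex la o = 0) (eo' : M.ex la o' = 0) (r : P.RsD (dvf f la) e)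
    (s : P.Res (dvf f la) (bf la β) v) (r' : P'.RsD (dvf f la) e')
    (s' : P'.Res (dvf f la) (bf la β) v') (g : Gd e v ψ) (g' : Gd e' v' ψ')
    (hE : Eu e v (b.eval (-(la : ℂ))) G σ θ μ) (hQ : Q₀ ∈ M.pts)
    (T₀ : Tw C₀ Q₀ i₀ i₀' P C20 x₀ m₀ G) (T₀' : Tw C₀ Q₀ i₀' i₀ P' C20' x₀' m₀' G') :
    ∃ (ι : G'.kf ≃ₐ[ℂ] G.kf) (c : ℂ) (j : ℤ), c ≠ 0 ∧
      ∀ Q ∈ M.pts, ∀ C i i' C2 x m C2' x' m', Tw C Q i i' P C2 x m G →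
        Tw C Q i' i P' C2' x' m' G' → Io Q P G P' G' ι ∧
        Un (lift P G) (ip 3 f / (C.z i ^ M.aa o * C.z i' ^ M.aa o')) ∧
        G.pl.π (ψ / C2.z m ^ G.v ψ) ^ (M.aa o' * G'.v ψ') *
          ι (G'.pl.π (ψ' / C2'.z m' ^ G'.v ψ')) ^ (M.aa o * G.v ψ) *
          G.pl.π (P.π (ip 3 f / (C.z i ^ M.aa o * C.z i' ^ M.aa o'))) ^ (-(G.v ψ * G'.v ψ')) =
        algebraMap ℂ _ c * σ ^ j := by
  obtain ⟨C, lab, i, i', C2, m, C2', m', hp, li, li', T, T'⟩ := tw_pt E hy.ne hM hQ ho ho' T₀ T₀'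
  obtain ⟨⟨ι, hι⟩, -⟩ := rIso _ k k' _ _ _ _ _ _ _ _ _ _ _ _ _ _ T T'
  exact ⟨ι, rCrp E f la b β q M o o' k k' P P' e v e' v' ψ ψ' G G' σ θ μ ι Q₀ C lab i i' C2 x₀ m
    C2' x₀' m' hy hM eo eo' r s r' s' g g' hE hQ hp li li' T T' hι⟩

end Pool.Agent.MP_5d9b3c_ag.P3B
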