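import Pool.Agent.MP_5d9b3c_ag.P3B.XSpec
import Pool.Agent.MP_ee8c61_ag.M3BK.RP1
import Pool.Agent.MP_ee8c61_ag.M3BK.RTh
import Pool.Agent.MP_ee8c61_ag.M3BK.Cr2

/-! Functions on the projective line with prescribed divisor. -/

namespace Pool.Agent.MP_5d9b3c_ag.P3B

open Pool.Agent.MP_ee8c61_ag Pool.Agent.MP_ee8c61_ag.M3BK M3 M3RESID Set Polynomial

variable {k : Type} [Field k] [Algebra ℂ k] {σ : k} {θ : VF k}

/-- A function without zeros and poles at finite distance is a constant. -/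
theorem const_of (h : P1 σ θ) {t : k} (ht : t ≠ 0)
    (h0 : ∀ U : DV k, Nrm U → 0 ≤ U.v σ → U.v t = 0) : ∃ c : ℂ, c ≠ 0 ∧ t = algebraMap ℂ k c := by
  obtain ⟨⟨U, -, n1, -, n3, n4, n5, n6⟩, -⟩ := rP1 k σ θ h
  have h1 : ∀ c, (U (some c)).v t = 0 := fun c => h0 _ ((n1 _).2 ⟨_, rfl⟩) (by
    by_cases e : c = 0
    · have := n3 c
      rw [e, map_zero, sub_zero] at this
      rw [e, this]
      decide
    · exact (n4 c e).ge)
  have h2 : (U none).v t = 0 := by
    rw [← (n6 t).2, finsum_eq_single _ none]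
    rintro (_ | c) hc
    · exact absurd rfl hc
    · exact h1 c
  obtain ⟨r, hr⟩ := n5 none t (Or.inr h2.ge)
  have h3 : t - algebraMap ℂ k r = 0 := by
    by_contra e
    have h4 : ∀ c, 0 ≤ (U c).v (t - algebraMap ℂ k r) := fun c =>
      (sub_mem (show t ∈ (U c).F 0 from Or.inr (by
        rcases c with _ | c
        · exact h2.ge
        · exact (h1 c).ge)) (cst_F _ r) : _ ∈ (U c).F 0).resolve_left e
    have h5 := single_le_finsum none (n6 _).1 h4
    rw [(n6 _).2] at h5
    exact absurd ((hr.resolve_left e).trans h5) (by decide)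
  exact ⟨r, fun e => ht (by simpa [e] using h3), sub_eq_zero.1 h3⟩

theorem rMon : SMON := by
  classical
  intro k _ _ σ θ t D h ht hD
  obtain ⟨⟨U, -, n1, n2, n3, n4, -, n6⟩, -⟩ := rP1 k σ θ h
  have h0 := RTh.ne h
  have n7 : ∀ c a, c ≠ a → (U (some c)).v (σ - algebraMap ℂ k a) = 0 := fun c a e =>
    (Cr.unit_v (sub_ne_zero.2 e) (by
      rw [map_sub, sub_sub_sub_cancel_right]
      exact Or.inr (n3 c).ge)).2
  have key : ∀ (S : Finset ℂ) (t : k), t ≠ 0 → (∀ c ∉ S, (U (some c)).v t = 0) →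
      (∀ c, c ≠ 0 → D ∣ (U (some c)).v t) → ∃ (c : ℂ) (j : ℤ) (p q : ℂ[X]), c ≠ 0 ∧ p.Monic ∧
        q.Monic ∧ t = algebraMap ℂ k c * σ ^ j * (aeval σ p / aeval σ q) ^ D := fun S => by
    induction S using Finset.induction_on with
    | empty =>
      intro t ht h1 _
      obtain ⟨c, hc, e⟩ := const_of h ht fun W hW h2 => by
        obtain ⟨_ | c, rfl⟩ := (n1 W).1 hW
        · rw [n2] at h2
          exact absurd h2 (by decide)
        · exact h1 c (by simp)
      exact ⟨c, 0, 1, 1, hc, monic_one, monic_one, by simp [e]⟩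
    | insert a S _ ih =>
      intro t ht h1 h2
      have l0 := RP1.lin_ne h a
      have l1 := zpow_ne_zero ((U (some a)).v t) l0
      have hv : ∀ c, (U (some c)).v (t / (σ - algebraMap ℂ k a) ^ (U (some a)).v t) =
          if c = a then 0 else (U (some c)).v t := fun c => by
        rw [DV.div _ ht l1, v_zpow _ l0]
        split_ifs with e
        · rw [e, n3, mul_one, sub_self]
        · rw [n7 c a e, mul_zero, sub_zero]
      obtain ⟨c, j, p, q, hc, hp, hq, e⟩ := ih _ (div_ne_zero ht l1)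
        (fun c hc => by
          rw [hv]
          split_ifs with e
          · rfl
          · exact h1 c (by simp [e, hc]))
        (fun c hc => by
          rw [hv]
          split_ifs
          · exact dvd_zero _
          · exact h2 c hc)
      rw [div_eq_iff l1] at e
      by_cases ha : a = 0
      · refine ⟨c, j + (U (some a)).v t, p, q, hc, hp, hq, ?_⟩
        generalize (U (some a)).v t = n at e
        rw [ha, map_zero, sub_zero] at e
        rw [e, zpow_add₀ h0]
        ring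
      · obtain ⟨r, hr⟩ := h2 a ha
        rw [hr, mul_comm D, zpow_mul, mul_assoc, ← mul_zpow] at e
        refine ⟨c, j, p * (X - C a) ^ r.toNat, q * (X - C a) ^ (-r).toNat, hc,
          hp.mul ((monic_X_sub_C a).pow _), hq.mul ((monic_X_sub_C a).pow _), ?_⟩
        rw [map_mul, map_mul, map_pow, map_pow, RP1.lin, mul_div_mul_comm, ← zpow_natCast,
          ← zpow_natCast, ← zpow_sub₀ l0, Int.toNat_sub_toNat_neg]
        exact e
  refine key (((n6 t).1.preimage (Option.some_injective ℂ).injOn).toFinset) t ht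
    (fun c hc => by simpa using hc) fun c hc => hD _ ((n1 _).2 ⟨_, rfl⟩) (n4 c hc)

/-- A function without zeros and poles off zero and infinity is a monomial. -/
theorem mon_of (h : P1 σ θ) {t : k} (ht : t ≠ 0)
    (h0 : ∀ U : DV k, Nrm U → U.v σ = 0 → U.v t = 0) :
    ∃ (c : ℂ) (j : ℤ), c ≠ 0 ∧ t = algebraMap ℂ k c * σ ^ j := by
  obtain ⟨c, j, p, q, hc, -, -, e⟩ := rMon k σ θ t 0 h ht fun U a b => (h0 U a b).symm ▸ dvd_rfl
  exact ⟨c, j, hc, by simpa using e⟩

/-- The degree is zero. -/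
theorem dvd_last (h : P1 σ θ) {t : k} {D : ℤ} {W : DV k} (hW : Nrm W)
    (h0 : ∀ U : DV k, Nrm U → U ≠ W → D ∣ U.v t) : D ∣ W.v t := by
  classical
  obtain ⟨⟨U, inj, n1, -, -, -, -, n6⟩, -⟩ := rP1 k σ θ h
  obtain ⟨c, rfl⟩ := (n1 W).1 hW
  obtain ⟨f1, f2⟩ := n6 t
  rw [finsum_eq_sum_of_support_subset _ (s := insert c f1.toFinset) (by
    intro a ha
    simp only [Finset.coe_insert, Finite.coe_toFinset]
    exact Or.inr ha), ← Finset.add_sum_erase _ _ (Finset.mem_insert_self c _)] at f2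
  rw [eq_neg_of_add_eq_zero_left f2, dvd_neg]
  exact Finset.dvd_sum fun a ha => h0 _ ((n1 _).2 ⟨_, rfl⟩)
    fun e => Finset.ne_of_mem_erase ha (inj e)

theorem exp_of_eul (h : P1 σ θ) {e : Dv k} {U : DV k} {τ : VF k} (hN : Nrm U) (hτ : Eul U τ)
    {a : ℂ} (ha : e.δ τ - algebraMap ℂ k a ∈ U.F 1) : Exp e U a := by
  obtain ⟨π, hπ⟩ := hN
  have π0 : π ≠ 0 := fun e => by simp [e, U.zero] at hπ
  have h1 : τ π / π - algebraMap ℂ k 1 ∈ U.F 1 := by simpa [hπ] using hτ.dlog π0
  obtain ⟨h2, h3⟩ := Cr.unit_v one_ne_zero h1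
  have h4 : τ π ≠ 0 := fun e => h2 (by simp [e])
  have h5 : τ σ ≠ 0 := fun e => h4 (by rw [Cr.der_zero h.gen e]; rfl)
  have h6 : ∀ v : VF k, v = (v π / π / (τ π / π)) • τ := fun v => by
    have e1 : v = (v σ / τ σ) • τ := sub_eq_zero.1 (Cr.der_zero h.gen (by
      rw [Derivation.sub_apply, Derivation.smul_apply, smul_eq_mul, div_mul_cancel₀ _ h5,
        sub_self]))
    generalize v σ / τ σ = g at e1
    rw [e1, Derivation.smul_apply, smul_eq_mul, mul_div_assoc, mul_div_cancel_right₀ _ h2]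
  have h7 : e.δ τ ∈ U.F 0 :=
    F_of_eq (add_mem (U.F_anti (by decide) ha) (cst_F U a)) (sub_add_cancel _ _).symm
  refine ⟨fun v hv => ?_, fun v => ?_, τ, hτ, ha⟩
  · have h8 := F_div (LV_dlog hv π) (τ π / π)
    rw [h3, sub_zero] at h8
    rw [h6 v, e.smul]
    exact add_mem (F_mul0 h8 h7) (U.F_anti (by decide) (hτ.zero h8))
  · rw [h6 v]
    exact ⟨_, LV_smul (m := U.v (v π / π / (τ π / π))) (Or.inr le_rfl) hτ.mem⟩

/-- The volume has an exponent at every place. -/
theorem exp_ex (h : P1 σ θ) {e : Dv k} {μ : ℂ} (hμ : e.δ θ = algebraMap ℂ k μ) {W : DV k}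
    (hW : Nrm W) : ∃ a, Exp e W a := by
  choose U hU using RP1.exists_U h
  have h0 := RTh.ne h
  have hσ : ∀ c, (U c).v σ = RP1.val c 0 := fun c => by simpa using hU c 0
  have h1 : ∀ c, (U (some c)).v (σ - algebraMap ℂ k c) = 1 := fun c => by
    rw [hU, RP1.val, if_pos rfl]
  have hc : ∀ a c : ℂ, algebraMap ℂ k a / (σ - algebraMap ℂ k c) ∈ (U none).F 1 := fun a c => by
    simpa [hU, RP1.val] using F_div (cst_F (U none) a) (σ - algebraMap ℂ k c)
  have hθ : ∀ c, θ (σ - algebraMap ℂ k c) = σ := fun c => by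
    rw [map_sub, Derivation.map_algebraMap, sub_zero, h.eul]
  obtain ⟨_ | c, rfl⟩ := RP1.classify h hU hW
  · refine ⟨-μ, exp_of_eul h hW (RP1.eul h (τ := -θ) fun c => ?_) ?_⟩
    · have := RP1.lin_ne h c
      rw [Derivation.neg_apply, hθ, hU, RP1.val]
      exact F_of_eq (neg_mem (hc c c)) (by push_cast; field_simp; ring)
    · rw [map_neg, hμ, map_neg, sub_self]
      exact zero_mem _
  · have h2 := RP1.eul h (U := U (some c)) (τ := ((σ - algebraMap ℂ k c) / σ) • θ) fun c' => by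
      rw [Derivation.smul_apply, hθ, smul_eq_mul, div_mul_cancel₀ _ h0]
      by_cases e : c = c'
      · simp [← e, h1, div_self (RP1.lin_ne h c)]
      · have := F_div (Or.inr (h1 c).ge : _ ∈ (U (some c)).F 1) (σ - algebraMap ℂ k c')
        rw [hU, RP1.val, if_neg e] at this ⊢
        simpa using this
    by_cases e0 : c = 0
    · refine ⟨μ, exp_of_eul h hW h2 ?_⟩
      rw [e0, map_zero, sub_zero, div_self h0, one_smul, hμ, sub_self]
      exact zero_mem _
    · have h3 := F_div (Or.inr (h1 c).ge : _ ∈ (U (some c)).F 1) σ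
      rw [hσ, RP1.val, if_neg e0, sub_zero] at h3
      refine ⟨1, exp_of_eul h hW h2 (F_of_eq (F_mul0 (cst_F _ (μ - 1)) h3) ?_)⟩
      rw [e.smul, hμ, Derivation.leibniz_div, hθ, h.eul]
      simp only [map_sub, map_one, smul_eq_mul]
      field_simp
      ring

end Pool.Agent.MP_5d9b3c_ag.P3B
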